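import Pool.Agent.W221.ABC.Main7

/-!
# The abc triples with a large member
-/

set_option autoImplicit false

namespace Pool.Agent.T2h82.Sq

open Finset
open Pool.Agent.W221.ABC7 (Fx count_FxB ExcB excB_finite)

/-- the product of the primes dividing `n` -/
def rd (n : ℕ) : ℕ := ∏ p ∈ n.primeFactors, p

/-- an abc triple `a + b = c`, `a ≤ b` -/
def IsT (t : ℕ × ℕ × ℕ) : Prop :=
  0 < t.1 ∧ t.1 ≤ t.2.1 ∧ Nat.Coprime t.1 t.2.1 ∧ t.1 + t.2.1 = t.2.2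

/-- the radical -/
def R3 (t : ℕ × ℕ × ℕ) : ℕ := rd (t.1 * t.2.1 * t.2.2)

/-- radical at most `X` and `X ^ h < c ≤ X ^ k` -/
def Big (h k X : ℝ) : Set (ℕ × ℕ × ℕ) :=
  {t | IsT t ∧ (R3 t : ℝ) ≤ X ∧ X ^ h < (t.2.2 : ℝ) ∧ (t.2.2 : ℝ) ≤ X ^ k}

theorem box_finite (Y : ℝ) : {t : ℕ × ℕ × ℕ | IsT t ∧ (t.2.2 : ℝ) ≤ Y}.Finite := by
  refine Set.Finite.subset (Finset.finite_toSet
    ((range (⌊Y⌋₊ + 1)) ×ˢ (range (⌊Y⌋₊ + 1)) ×ˢ (range (⌊Y⌋₊ + 1)))) ?_
  rintro ⟨a, b, c⟩ ⟨⟨h1, h2, h3, h4⟩, h5⟩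
  have h6 : c ≤ ⌊Y⌋₊ := Nat.le_floor h5
  simp only at h1 h2 h4
  simp only [coe_product, Set.mem_prod, coe_range, Set.mem_Iio]
  omega

theorem big_finite (h k X : ℝ) : (Big h k X).Finite :=
  (box_finite (X ^ k)).subset (fun _ ht => ⟨ht.1, ht.2.2.2⟩)

/-- the exponent is at most `e0 * lam` -/
theorem Fx_le (l e0 : ℝ) (hl : 0 < l) (h1 : 25 / 42 ≤ e0) (h2 : l - 1 ≤ e0 * l) : Fx l ≤ e0 * l := by
  have h3 : 25 / 42 * l ≤ e0 * l := by
    have := mul_le_mul_of_nonneg_right h1 hl.le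
    linarith
  unfold Fx
  split_ifs with a1 a2 a3 a4 a5
  · linarith
  · linarith
  · linarith
  · push Not at a3
    linarith
  · push Not at a4
    linarith
  · exact h2

/-- one step -/
theorem step (h r e0 e : ℝ) (hh : 0 < h) (hr0 : 0 < r) (h1 : 25 / 42 ≤ e0)
    (h2 : 1 - h ≤ e0) (h3 : (1 + r) * e0 < e) : ∃ C : ℝ, 0 ≤ C ∧ ∀ X : ℝ, 1 ≤ X →
    ((Big h (h * (1 + r)) X).ncard : ℝ) ≤ C * X ^ e := by
  set δ : ℝ := (e - (1 + r) * e0) / (h * (1 + r)) with hδ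
  have hδ0 : 0 < δ := by
    rw [hδ]
    apply div_pos (by linarith) (by positivity)
  obtain ⟨C, hC⟩ := count_FxB 1 (1 / h) δ (by positivity) hδ0
  refine ⟨|C|, abs_nonneg C, fun X hX => ?_⟩
  have hX0 : 0 < X := by linarith
  have hXk : 1 ≤ X ^ (h * (1 + r)) := Real.one_le_rpow hX (by positivity)
  set N : ℕ := ⌊X ^ (h * (1 + r))⌋₊ with hN
  have hN1 : 1 ≤ N := Nat.le_floor (by simpa using hXk)
  have hNX : (N : ℝ) ≤ X ^ (h * (1 + r)) := Nat.floor_le (by positivity)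
  have hsub : Big h (h * (1 + r)) X ⊆ ExcB 1 (1 / h) N := by
    rintro t ⟨⟨a1, a2, a3, a4⟩, a5, a6, a7⟩
    refine ⟨a1, by omega, a3, a4, Nat.le_floor a7, ?_⟩
    rw [one_mul]
    have e1 : X = (X ^ h) ^ (1 / h) := by
      rw [← Real.rpow_mul hX0.le, mul_one_div_cancel hh.ne', Real.rpow_one]
    have e2 : (X ^ h) ^ (1 / h) ≤ (t.2.2 : ℝ) ^ (1 / h) :=
      Real.rpow_le_rpow (by positivity) a6.le (by positivity)
    have e3 : (R3 t : ℝ) ≤ (t.2.2 : ℝ) ^ (1 / h) := by linarith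
    exact e3
  have hF : Fx (1 / h) ≤ e0 * (1 / h) := by
    refine Fx_le (1 / h) e0 (by positivity) h1 ?_
    rw [← sub_nonneg]
    have : e0 * (1 / h) - (1 / h - 1) = (e0 - (1 - h)) / h := by
      field_simp
    rw [this]
    exact div_nonneg (by linarith) hh.le
  have hNr : (1 : ℝ) ≤ N := by exact_mod_cast hN1
  calc ((Big h (h * (1 + r)) X).ncard : ℝ) ≤ ((ExcB 1 (1 / h) N).ncard : ℝ) := by
        exact_mod_cast Set.ncard_le_ncard hsub (excB_finite _ _ _)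
    _ ≤ C * (N : ℝ) ^ (Fx (1 / h) + δ) := hC N hN1
    _ ≤ |C| * (N : ℝ) ^ (Fx (1 / h) + δ) := by
        gcongr
        exact le_abs_self C
    _ ≤ |C| * (N : ℝ) ^ (e0 * (1 / h) + δ) := by
        gcongr
    _ ≤ |C| * (X ^ (h * (1 + r))) ^ (e0 * (1 / h) + δ) := by
        have : 0 ≤ e0 * (1 / h) + δ := by positivity
        gcongr
    _ = |C| * X ^ e := by
        rw [← Real.rpow_mul hX0.le]
        congr 2
        rw [hδ]
        field_simp
        ring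

/-- the abc triples with `c` between `X ^ h` and `X ^ k`, for `h > 2 / 5` -/
theorem large (h k : ℝ) (hh : 2 / 5 < h) : ∃ ν C : ℝ, 0 < ν ∧ 0 ≤ C ∧ ∀ X : ℝ, 1 ≤ X →
    ((Big h k X).ncard : ℝ) ≤ C * X ^ (3 / 5 - ν) := by
  set e0 : ℝ := max (25 / 42) (1 - h) with he0
  have he01 : 25 / 42 ≤ e0 := le_max_left _ _
  have he02 : 1 - h ≤ e0 := le_max_right _ _
  have he03 : e0 < 3 / 5 := max_lt (by norm_num) (by linarith)
  set ν : ℝ := (3 / 5 - e0) / 2 with hν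
  have hν0 : 0 < ν := by rw [hν]; linarith
  set r : ℝ := ν / 2 with hr
  have hr0 : 0 < r := by rw [hr]; linarith
  have hre : (1 + r) * e0 < 3 / 5 - ν := by
    have : r * e0 ≤ r * 1 := mul_le_mul_of_nonneg_left (by linarith) hr0.le
    have h1 : e0 = 3 / 5 - 2 * ν := by rw [hν]; ring
    linarith
  have key : ∀ J : ℕ, ∃ C : ℝ, 0 ≤ C ∧ ∀ X : ℝ, 1 ≤ X →
      ((Big h (h * (1 + r) ^ J) X).ncard : ℝ) ≤ C * X ^ (3 / 5 - ν) := by
    intro J
    induction J with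
    | zero =>
      refine ⟨0, le_rfl, fun X hX => ?_⟩
      have : Big h (h * (1 + r) ^ 0) X = ∅ := by
        rw [Set.eq_empty_iff_forall_notMem]
        rintro t ⟨-, -, a6, a7⟩
        rw [pow_zero, mul_one] at a7
        linarith
      rw [this]
      simp
    | succ J ih =>
      obtain ⟨C1, hC1, h1⟩ := ih
      have hJ1 : (1 : ℝ) ≤ (1 + r) ^ J := one_le_pow₀ (by linarith)
      have hhJ : h ≤ h * (1 + r) ^ J := by nlinarith
      obtain ⟨C2, hC2, h2⟩ := step (h * (1 + r) ^ J) r e0 (3 / 5 - ν) (by positivity) hr0 he01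
        (by linarith) hre
      refine ⟨C1 + C2, by positivity, fun X hX => ?_⟩
      have hsub : Big h (h * (1 + r) ^ (J + 1)) X ⊆
          Big h (h * (1 + r) ^ J) X ∪ Big (h * (1 + r) ^ J) (h * (1 + r) ^ J * (1 + r)) X := by
        rintro t ⟨a1, a5, a6, a7⟩
        rcases le_or_gt ((t.2.2 : ℝ)) (X ^ (h * (1 + r) ^ J)) with hle | hlt
        · exact Or.inl ⟨a1, a5, a6, hle⟩
        · refine Or.inr ⟨a1, a5, hlt, ?_⟩
          rw [pow_succ, ← mul_assoc] at a7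
          exact a7
      have h3 := (Set.ncard_le_ncard hsub ((big_finite _ _ _).union (big_finite _ _ _))).trans
        (Set.ncard_union_le _ _)
      have h4 : ((Big h (h * (1 + r) ^ (J + 1)) X).ncard : ℝ) ≤
          ((Big h (h * (1 + r) ^ J) X).ncard : ℝ) +
          ((Big (h * (1 + r) ^ J) (h * (1 + r) ^ J * (1 + r)) X).ncard : ℝ) := by
        exact_mod_cast h3
      rw [add_mul]
      linarith [h1 X hX, h2 X hX]
  obtain ⟨J, hJ⟩ := pow_unbounded_of_one_lt (k / h) (by linarith : 1 < 1 + r)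
  have hJk : k ≤ h * (1 + r) ^ J := by
    rw [div_lt_iff₀ (by linarith)] at hJ
    linarith
  obtain ⟨C, hC, hc⟩ := key J
  refine ⟨ν, C, hν0, hC, fun X hX => le_trans ?_ (hc X hX)⟩
  have hsub : Big h k X ⊆ Big h (h * (1 + r) ^ J) X := by
    rintro t ⟨a1, a5, a6, a7⟩
    exact ⟨a1, a5, a6, a7.trans (Real.rpow_le_rpow_of_exponent_le hX hJk)⟩
  exact_mod_cast Set.ncard_le_ncard hsub (big_finite _ _ _)

end Pool.Agent.T2h82.Sq
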