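import Pool.Agent.R417.BC.Low2
import Pool.Agent.T2h82.Low
import Pool.Agent.T2h82.Sq.Large

/-!
# Many abc triples with a square
-/

set_option autoImplicit false

namespace Pool.Agent.T2h82.Sq

open Finset Filter Topology
open Pool.Agent.R417.BC (class_aux not_dvd_small)
open Pool.Agent.R417.LD (sieve)

theorem rd_le {n : ℕ} (hn : n ≠ 0) : rd n ≤ n :=
  Nat.le_of_dvd (Nat.pos_of_ne_zero hn) (Nat.prod_primeFactors_dvd n)

theorem rd_le_mul {a b x : ℕ} (ha : a ≠ 0) (hb : b ≠ 0) (hx : x ≠ 0) :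
    rd (a * b * x ^ 2) ≤ a * b * x := by
  have h1 : rd (a * b * x ^ 2) = rd (a * b * x) := by
    unfold rd
    have : (a * b * x ^ 2).primeFactors = (a * b * x).primeFactors := by
      rw [Nat.primeFactors_mul (mul_ne_zero ha hb) (pow_ne_zero _ hx),
        Nat.primeFactors_mul (mul_ne_zero ha hb) hx, Nat.primeFactors_pow _ (by norm_num)]
    rw [this]
  rw [h1]
  exact rd_le (mul_ne_zero (mul_ne_zero ha hb) hx)

/-- the construction -/
theorem core (T : ℕ) (h8 : 8 ≤ T) (hlog : 16 * (1 + Real.log ((24 * T : ℕ) : ℝ)) ≤ T) :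
    ∃ S : Finset (ℕ × ℕ × ℕ), (∀ t ∈ S, IsT t ∧ (∃ x : ℕ, 2 ≤ x ∧ t.2.2 = x ^ 2) ∧
      R3 t ≤ (24 * T) ^ 5 ∧ t.2.2 ≤ (24 * T) ^ 2) ∧ 3 / 2 * (T : ℝ) ^ 3 ≤ (S.card : ℝ) := by
  classical
  have hT0 : (8 : ℝ) ≤ T := by exact_mod_cast h8
  obtain ⟨S, hS, hcard⟩ := sieve (3 * T) (T ^ 2) (24 * T) (fun i => 4 * (i + 3 * T) + 1)
    (fun _ j => 3 * (j : ℤ) + 1)
    (fun i hi => ⟨by omega, by omega⟩)
    (fun p hp hp5 i i' h1 h2 => by
      refine class_aux hp (not_dvd_small hp5 (by norm_num) (by norm_num) : ¬ (p : ℤ) ∣ 4) ?_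
      have := h1.sub h2
      refine this.trans (dvd_of_eq (by ring)))
    (fun p hp hp5 i j j' h1 h2 => by
      refine class_aux hp (not_dvd_small hp5 (by norm_num) (by norm_num) : ¬ (p : ℤ) ∣ 3) ?_
      have := h1.sub h2
      refine this.trans (dvd_of_eq (by ring)))
    (by push_cast; push_cast at hlog; linarith)
    (by
      refine hlog.trans ?_
      push_cast
      nlinarith)
    (by
      push_cast
      have : (64 : ℝ) ≤ (T : ℝ) ^ 2 := by nlinarith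
      nlinarith)
  set x : ℕ → ℕ := fun i => 4 * (i + 3 * T) + 1 with hx
  set a : ℕ → ℕ := fun j => 3 * j + 1 with ha
  have hdata : ∀ q ∈ S, 12 * T < x q.1 ∧ x q.1 ≤ 24 * T ∧ a q.2 ≤ 3 * T ^ 2 ∧ 0 < a q.2 ∧
      2 * a q.2 ≤ (x q.1) ^ 2 ∧ Nat.Coprime (a q.2) (x q.1) := by
    intro q hq
    obtain ⟨h2, h3, h4⟩ := hS q hq
    have hx1 : 12 * T < x q.1 := by simp only [hx]; omega
    have hx2 : x q.1 ≤ 24 * T := by simp only [hx]; omega
    have ha1 : a q.2 ≤ 3 * T ^ 2 := by simp only [ha]; omega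
    have ha0 : 0 < a q.2 := by simp only [ha]; omega
    refine ⟨hx1, hx2, ha1, ha0, ?_, ?_⟩
    · have : (12 * T) ^ 2 ≤ (x q.1) ^ 2 := Nat.pow_le_pow_left hx1.le 2
      have e : (12 * T) ^ 2 = 144 * T ^ 2 := by ring
      rw [e] at this
      omega
    · rw [Nat.coprime_iff_gcd_eq_one]
      by_contra hne
      obtain ⟨p, hp, hpd⟩ := Nat.exists_prime_and_dvd hne
      have d1 : p ∣ a q.2 := hpd.trans (Nat.gcd_dvd_left _ _)
      have d2 : p ∣ x q.1 := hpd.trans (Nat.gcd_dvd_right _ _)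
      have hp2 : p ≠ 2 := by
        rintro rfl
        simp only [hx] at d2
        omega
      have hp3 : p ≠ 3 := by
        rintro rfl
        simp only [ha] at d1
        omega
      have hp4 : p ≠ 4 := by
        rintro rfl
        exact absurd hp (by norm_num)
      have hp5 : 5 ≤ p := by
        have := hp.two_le
        omega
      refine h4 p hp hp5 ?_ ?_
      · have : ((p : ℕ) : ℤ) ∣ ((x q.1 : ℕ) : ℤ) := Int.natCast_dvd_natCast.2 d2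
        simp only [hx] at this
        push_cast at this
        exact this
      · have : ((p : ℕ) : ℤ) ∣ ((a q.2 : ℕ) : ℤ) := Int.natCast_dvd_natCast.2 d1
        simp only [ha] at this
        push_cast at this
        exact this
  set f : ℕ × ℕ → ℕ × ℕ × ℕ := fun q => (a q.2, (x q.1) ^ 2 - a q.2, (x q.1) ^ 2) with hf
  have hinj : Set.InjOn f S := by
    intro q hq q' hq' h
    simp only [hf, Prod.mk.injEq] at h
    obtain ⟨e1, -, e3⟩ := h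
    have e4 : x q.1 = x q'.1 := Nat.pow_left_injective (n := 2) (by norm_num) e3
    simp only [hx] at e4
    simp only [ha] at e1
    exact Prod.ext (by omega) (by omega)
  refine ⟨S.image f, ?_, ?_⟩
  · intro t ht
    rw [mem_image] at ht
    obtain ⟨q, hq, rfl⟩ := ht
    obtain ⟨k1, k2, k3, k4, k5, k6⟩ := hdata q hq
    simp only [hf]
    have hsub : a q.2 + ((x q.1) ^ 2 - a q.2) = (x q.1) ^ 2 := by omega
    refine ⟨⟨k4, by simp only; omega, ?_, hsub⟩, ⟨x q.1, by omega, rfl⟩, ?_, ?_⟩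
    · have h1 : Nat.Coprime (a q.2) ((x q.1) ^ 2) := Nat.Coprime.pow_right 2 k6
      have h2 : (x q.1) ^ 2 = ((x q.1) ^ 2 - a q.2) + a q.2 := by omega
      rw [h2] at h1
      simpa using h1
    · have h1 := rd_le_mul (a := a q.2) (b := (x q.1) ^ 2 - a q.2) (x := x q.1) (by omega) (by omega)
        (by omega)
      have h2 : a q.2 ≤ (x q.1) ^ 2 := by omega
      have h3 : (x q.1) ^ 2 - a q.2 ≤ (x q.1) ^ 2 := Nat.sub_le _ _
      calc R3 (a q.2, (x q.1) ^ 2 - a q.2, (x q.1) ^ 2)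
          = rd (a q.2 * ((x q.1) ^ 2 - a q.2) * (x q.1) ^ 2) := rfl
        _ ≤ a q.2 * ((x q.1) ^ 2 - a q.2) * x q.1 := h1
        _ ≤ (x q.1) ^ 2 * (x q.1) ^ 2 * x q.1 := by gcongr
        _ = (x q.1) ^ 5 := by ring
        _ ≤ _ := Nat.pow_le_pow_left k2 5
    · exact Nat.pow_le_pow_left k2 2
  · rw [card_image_of_injOn hinj]
    refine le_trans (le_of_eq ?_) hcard
    push_cast
    ring

/-- the lower bound -/
theorem lower (k : ℝ) (hk : 2 / 5 ≤ k) : ∃ c X₀ : ℝ, 0 < c ∧ ∀ X : ℝ, X₀ ≤ X →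
    c * X ^ (3 / 5 : ℝ) ≤ (({t : ℕ × ℕ × ℕ | IsT t ∧ (∃ x : ℕ, 2 ≤ x ∧ t.2.2 = x ^ 2) ∧
      (R3 t : ℝ) ≤ X ∧ (t.2.2 : ℝ) ≤ X ^ k}.ncard : ℕ) : ℝ) := by
  obtain ⟨T₁, hT₁, h⟩ := ev_T (Real.log 24)
  set X₀ : ℝ := (48 * T₁) ^ 5 with hX₀
  refine ⟨3 / 2 / 48 ^ 3, X₀, by positivity, fun X hX => ?_⟩
  have hX01 : 1 ≤ X₀ := by
    rw [hX₀]
    exact one_le_pow₀ (by linarith)
  have hX1 : 1 ≤ X := hX01.trans hX
  have hX0 : 0 < X := by linarith
  set y : ℝ := X ^ (1 / 5 : ℝ) with hy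
  have hy5 : y ^ 5 = X := by
    rw [hy, ← Real.rpow_natCast, ← Real.rpow_mul hX0.le]
    norm_num
  have hy0 : 0 < y := by positivity
  have hyT : 48 * T₁ ≤ y := by
    refine le_of_pow_le_pow_left₀ (n := 5) (by norm_num) hy0.le ?_
    rw [hy5]
    exact hX
  set T : ℕ := ⌊y / 24⌋₊ with hT
  have hTy : (T : ℝ) ≤ y / 24 := Nat.floor_le (by positivity)
  have hTy2 : y / 48 ≤ T := by
    have := Nat.lt_floor_add_one (y / 24)
    have h1 : (1 : ℝ) ≤ y / 48 := by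
      rw [le_div_iff₀ (by norm_num)]
      linarith
    linarith
  have hTT : T₁ ≤ T := by linarith
  have h8 : 8 ≤ T := by
    have : (8 : ℝ) ≤ T := by linarith
    exact_mod_cast this
  have hT0 : (0 : ℝ) < T := by
    have : (8 : ℝ) ≤ T := by exact_mod_cast h8
    linarith
  have hlog : 16 * (1 + Real.log ((24 * T : ℕ) : ℝ)) ≤ T := by
    have := h T hTT
    push_cast
    rwa [Real.log_mul (by norm_num) hT0.ne']
  obtain ⟨S, hS, hcard⟩ := core T h8 hlog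
  have hTX : (24 * (T : ℝ)) ^ 5 ≤ X := by
    rw [← hy5]
    refine pow_le_pow_left₀ (by positivity) ?_ 5
    linarith
  have hTX2 : (24 * (T : ℝ)) ^ 2 ≤ X ^ k := by
    have e1 : y ^ 2 = X ^ (2 / 5 : ℝ) := by
      rw [hy, ← Real.rpow_natCast, ← Real.rpow_mul hX0.le]
      norm_num
    calc (24 * (T : ℝ)) ^ 2 ≤ y ^ 2 := pow_le_pow_left₀ (by positivity) (by linarith) 2
      _ = X ^ (2 / 5 : ℝ) := e1
      _ ≤ X ^ k := Real.rpow_le_rpow_of_exponent_le hX1 hk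
  have hfin : {t : ℕ × ℕ × ℕ | IsT t ∧ (∃ x : ℕ, 2 ≤ x ∧ t.2.2 = x ^ 2) ∧
      (R3 t : ℝ) ≤ X ∧ (t.2.2 : ℝ) ≤ X ^ k}.Finite :=
    (box_finite (X ^ k)).subset (fun _ ht => ⟨ht.1, ht.2.2.2⟩)
  have hsub : ((S : Finset (ℕ × ℕ × ℕ)) : Set (ℕ × ℕ × ℕ)) ⊆
      {t : ℕ × ℕ × ℕ | IsT t ∧ (∃ x : ℕ, 2 ≤ x ∧ t.2.2 = x ^ 2) ∧
      (R3 t : ℝ) ≤ X ∧ (t.2.2 : ℝ) ≤ X ^ k} := by
    intro t ht
    obtain ⟨a1, a2, a3, a4⟩ := hS t ht
    refine ⟨a1, a2, ?_, ?_⟩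
    · have : (R3 t : ℝ) ≤ (24 * (T : ℝ)) ^ 5 := by exact_mod_cast a3
      linarith
    · have : (t.2.2 : ℝ) ≤ (24 * (T : ℝ)) ^ 2 := by exact_mod_cast a4
      linarith
  have h2 := Set.ncard_le_ncard hsub hfin
  rw [Set.ncard_coe_finset] at h2
  have h3 : (S.card : ℝ) ≤ (({t : ℕ × ℕ × ℕ | IsT t ∧ (∃ x : ℕ, 2 ≤ x ∧ t.2.2 = x ^ 2) ∧
      (R3 t : ℝ) ≤ X ∧ (t.2.2 : ℝ) ≤ X ^ k}.ncard : ℕ) : ℝ) := by exact_mod_cast h2
  refine le_trans ?_ (hcard.trans h3)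
  have e1 : X ^ (3 / 5 : ℝ) = y ^ 3 := by
    rw [hy, ← Real.rpow_natCast, ← Real.rpow_mul hX0.le]
    norm_num
  rw [e1]
  have e2 : (y / 48) ^ 3 ≤ (T : ℝ) ^ 3 := pow_le_pow_left₀ (by positivity) hTy2 3
  calc 3 / 2 / 48 ^ 3 * y ^ 3 = 3 / 2 * (y / 48) ^ 3 := by ring
    _ ≤ _ := by gcongr

end Pool.Agent.T2h82.Sq
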