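import Pool.Agent.T2h82.Sq.Trip
import Pool.Agent.T2h82.Sq.Low

/-!
# The abc triples with a perfect power: the theorem
-/

set_option autoImplicit false

namespace Pool.Agent.T2h82.Sq

open Finset

/-- the triples with the property `P`, a perfect power, radical at most `X` and `c ≤ X ^ k` -/
def Tr (k X : ℝ) (P : ℕ × ℕ × ℕ → Prop) : Set (ℕ × ℕ × ℕ) :=
  {t | IsT t ∧ Mem PP t ∧ (R3 t : ℝ) ≤ X ∧ (t.2.2 : ℝ) ≤ X ^ k ∧ P t}

theorem tr_finite (k X : ℝ) (P : ℕ × ℕ × ℕ → Prop) : (Tr k X P).Finite :=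
  (box_finite (X ^ k)).subset (fun _ ht => ⟨ht.1, ht.2.2.2.1⟩)

theorem upper (k : ℝ) : ∃ C : ℝ, 0 < C ∧ ∀ X : ℝ, 1 ≤ X →
    ((Tr k X (fun _ => True)).ncard : ℝ) ≤ C * X ^ (3 / 5 : ℝ) := by
  classical
  obtain ⟨C1, hC1, h1⟩ := squares
  obtain ⟨ν, C2, hν, hC2, h2⟩ := large (21 / 50) k (by norm_num)
  have hl2 : 0 < Real.log 2 := Real.log_pos (by norm_num)
  refine ⟨C1 + 3 * (25 * (1 / Real.log 2) + 1) + C2, by positivity, fun X hX => ?_⟩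
  have hX0 : 0 < X := by linarith
  set Y : ℝ := X ^ (21 / 50 : ℝ) with hY
  have hY1 : 1 ≤ Y := Real.one_le_rpow hX (by norm_num)
  have hY0 : 0 < Y := by linarith
  set S := (tr_finite k X (fun _ => True)).toFinset with hS
  have hmem : ∀ t ∈ S, IsT t ∧ Mem PP t ∧ (R3 t : ℝ) ≤ X ∧ (t.2.2 : ℝ) ≤ X ^ k := by
    intro t ht
    rw [hS, Set.Finite.mem_toFinset] at ht
    obtain ⟨a, b, c, d, -⟩ := ht
    exact ⟨a, b, c, d⟩
  set A := S.filter (fun t => (t.2.2 : ℝ) ≤ Y) with hA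
  set A1 := A.filter (fun t => Mem (fun n => ∃ x : ℕ, n = x ^ 2) t) with hA1
  set A2 := A.filter (fun t => ¬ Mem (fun n => ∃ x : ℕ, n = x ^ 2) t) with hA2
  set B := S.filter (fun t => ¬ (t.2.2 : ℝ) ≤ Y) with hB
  have cA1 : (A1.card : ℝ) ≤ C1 * X ^ (3 / 5 : ℝ) := by
    refine h1 X hX A1 (fun t ht => ?_)
    rw [hA1, mem_filter, hA, mem_filter] at ht
    obtain ⟨a, b, c, d⟩ := hmem t ht.1.1
    exact ⟨a, c, ht.1.2, ht.2⟩
  have cA2 : (A2.card : ℝ) ≤ 3 * (25 * (1 / Real.log 2) + 1) * X ^ (3 / 5 : ℝ) := by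
    have e1 := cubes Y hY1 A2 (fun t ht => by
      rw [hA2, mem_filter, hA, mem_filter] at ht
      obtain ⟨a, b, c, d⟩ := hmem t ht.1.1
      refine ⟨a, ht.1.2, ?_⟩
      have key : ∀ n : ℕ, PP n → (¬ ∃ x : ℕ, n = x ^ 2) →
          ∃ w m : ℕ, 2 ≤ w ∧ 3 ≤ m ∧ n = w ^ m := by
        rintro n ⟨w, m, hw, hm, rfl⟩ hn
        refine ⟨w, m, hw, ?_, rfl⟩
        rcases Nat.lt_or_ge 2 m with h3 | h3
        · exact h3
        · exfalso
          have : m = 2 := by omega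
          exact hn ⟨w, by rw [this]⟩
      have hn := ht.2
      unfold Mem at hn
      push Not at hn
      rcases b with b | b | b
      · exact Or.inl (key _ b (by push Not; exact hn.1))
      · exact Or.inr (Or.inl (key _ b (by push Not; exact hn.2.1)))
      · exact Or.inr (Or.inr (key _ b (by push Not; exact hn.2.2))))
    have e2 : Real.log Y ≤ X ^ (1 / 25 : ℝ) * 25 := by
      have h3 := Real.log_le_rpow_div hX0.le (by norm_num : (0 : ℝ) < 1 / 25)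
      have h4 : Real.log Y = 21 / 50 * Real.log X := by
        rw [hY, Real.log_rpow hX0]
      have h5 : 0 ≤ Real.log X := Real.log_nonneg hX
      rw [h4]
      have h6 : X ^ (1 / 25 : ℝ) / (1 / 25) = X ^ (1 / 25 : ℝ) * 25 := by ring
      rw [h6] at h3
      linarith
    have hX25 : 1 ≤ X ^ (1 / 25 : ℝ) := Real.one_le_rpow hX (by norm_num)
    have e3 : Real.log Y / Real.log 2 + 1 ≤ (25 * (1 / Real.log 2) + 1) * X ^ (1 / 25 : ℝ) := by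
      have : Real.log Y / Real.log 2 ≤ X ^ (1 / 25 : ℝ) * 25 / Real.log 2 := by gcongr
      calc Real.log Y / Real.log 2 + 1 ≤ X ^ (1 / 25 : ℝ) * 25 / Real.log 2 + X ^ (1 / 25 : ℝ) := by
            linarith
        _ = _ := by ring
    refine e1.trans ?_
    have e4 : Y ^ (1 / 3 : ℝ) * Y * X ^ (1 / 25 : ℝ) = X ^ (3 / 5 : ℝ) := by
      rw [hY, ← Real.rpow_mul hX0.le, ← Real.rpow_add hX0, ← Real.rpow_add hX0]
      norm_num
    calc 3 * (Y ^ (1 / 3 : ℝ) * (Real.log Y / Real.log 2 + 1)) * Y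
        ≤ 3 * (Y ^ (1 / 3 : ℝ) * ((25 * (1 / Real.log 2) + 1) * X ^ (1 / 25 : ℝ))) * Y := by
          gcongr
      _ = 3 * (25 * (1 / Real.log 2) + 1) * (Y ^ (1 / 3 : ℝ) * Y * X ^ (1 / 25 : ℝ)) := by ring
      _ = _ := by rw [e4]
  have cB : (B.card : ℝ) ≤ C2 * X ^ (3 / 5 : ℝ) := by
    have hsub : ((B : Finset (ℕ × ℕ × ℕ)) : Set (ℕ × ℕ × ℕ)) ⊆ Big (21 / 50) k X := by
      intro t ht
      rw [mem_coe, hB, mem_filter, not_le] at ht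
      obtain ⟨a, b, c, d⟩ := hmem t ht.1
      exact ⟨a, c, ht.2, d⟩
    have e1 := Set.ncard_le_ncard hsub (big_finite _ _ _)
    rw [Set.ncard_coe_finset] at e1
    have e2 : (B.card : ℝ) ≤ ((Big (21 / 50) k X).ncard : ℝ) := by exact_mod_cast e1
    have e3 : X ^ (3 / 5 - ν) ≤ X ^ (3 / 5 : ℝ) :=
      Real.rpow_le_rpow_of_exponent_le hX (by linarith)
    calc (B.card : ℝ) ≤ C2 * X ^ (3 / 5 - ν) := e2.trans (h2 X hX)
      _ ≤ _ := by gcongr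
  have e0 : (S.card : ℝ) = (A.card : ℝ) + (B.card : ℝ) := by
    rw [← Nat.cast_add, card_filter_add_card_filter_not]
  have e1 : (A.card : ℝ) = (A1.card : ℝ) + (A2.card : ℝ) := by
    rw [← Nat.cast_add, card_filter_add_card_filter_not]
  have e2 : ((Tr k X (fun _ => True)).ncard : ℝ) = (S.card : ℝ) := by
    rw [Set.ncard_eq_toFinset_card _ (tr_finite k X (fun _ => True))]
  rw [e2, e0, e1]
  linarith

/-- the exceptions -/
theorem exceptions (k M : ℝ) (hM : 2 / 5 < M) : ∃ ν C : ℝ, 0 < ν ∧ 0 < C ∧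
    ∀ X : ℝ, 1 ≤ X →
    ((Tr k X (fun t => (R3 t : ℝ) ^ M ≤ (t.2.2 : ℝ))).ncard : ℝ) ≤ C * X ^ (3 / 5 - ν) := by
  set μ : ℝ := (M - 2 / 5) / (2 * M) with hμ
  have hM0 : 0 < M := by linarith
  have hμ0 : 0 < μ := by
    rw [hμ]
    apply div_pos (by linarith) (by linarith)
  have hμ1 : μ < 1 := by
    rw [hμ, div_lt_one (by linarith)]
    linarith
  have h1μ : 0 < 1 - μ := by linarith
  have hh : 2 / 5 < (1 - μ) * M := by
    have : (1 - μ) * M = (M + 2 / 5) / 2 := by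
      rw [hμ]
      field_simp
      ring
    rw [this]
    linarith
  obtain ⟨C1, hC1, h1⟩ := upper (k / (1 - μ))
  obtain ⟨ν2, C2, hν2, hC2, h2⟩ := large ((1 - μ) * M) k hh
  refine ⟨min (3 / 5 * μ) ν2, C1 + C2, lt_min (by positivity) hν2, by positivity, fun X hX => ?_⟩
  have hX0 : 0 < X := by linarith
  have hsub : Tr k X (fun t => (R3 t : ℝ) ^ M ≤ (t.2.2 : ℝ)) ⊆
      Tr (k / (1 - μ)) (X ^ (1 - μ)) (fun _ => True) ∪ (Big ((1 - μ) * M) k X ∪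
        {t | IsT t ∧ (t.2.2 : ℝ) ≤ X ^ ((1 - μ) * M) ∧ X ^ (1 - μ) < (R3 t : ℝ) ∧
          (R3 t : ℝ) ^ M ≤ (t.2.2 : ℝ)}) := by
    rintro t ⟨a, b, c, d, e⟩
    rcases le_or_gt ((R3 t : ℝ)) (X ^ (1 - μ)) with hle | hlt
    · left
      refine ⟨a, b, hle, ?_, trivial⟩
      rw [← Real.rpow_mul hX0.le, mul_div_cancel₀ _ h1μ.ne']
      exact d
    · right
      rcases le_or_gt ((t.2.2 : ℝ)) (X ^ ((1 - μ) * M)) with hle' | hlt'
      · exact Or.inr ⟨a, hle', hlt, e⟩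
      · exact Or.inl ⟨a, c, hlt', d⟩
  have hemp : {t : ℕ × ℕ × ℕ | IsT t ∧ (t.2.2 : ℝ) ≤ X ^ ((1 - μ) * M) ∧
      X ^ (1 - μ) < (R3 t : ℝ) ∧ (R3 t : ℝ) ^ M ≤ (t.2.2 : ℝ)} = ∅ := by
    rw [Set.eq_empty_iff_forall_notMem]
    rintro t ⟨a, b, c, d⟩
    have h3 : (X ^ (1 - μ)) ^ M < (R3 t : ℝ) ^ M := Real.rpow_lt_rpow (by positivity) c hM0
    rw [← Real.rpow_mul hX0.le] at h3
    linarith
  rw [hemp, Set.union_empty] at hsub
  have h3 := (Set.ncard_le_ncard hsub ((tr_finite _ _ _).union (big_finite _ _ _))).trans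
    (Set.ncard_union_le _ _)
  have h4 : ((Tr k X (fun t => (R3 t : ℝ) ^ M ≤ (t.2.2 : ℝ))).ncard : ℝ) ≤
      ((Tr (k / (1 - μ)) (X ^ (1 - μ)) (fun _ => True)).ncard : ℝ) +
      ((Big ((1 - μ) * M) k X).ncard : ℝ) := by exact_mod_cast h3
  have h5 := h1 (X ^ (1 - μ)) (Real.one_le_rpow hX h1μ.le)
  have h6 := h2 X hX
  rw [← Real.rpow_mul hX0.le] at h5
  have h7 : X ^ ((1 - μ) * (3 / 5)) ≤ X ^ (3 / 5 - min (3 / 5 * μ) ν2) :=
    Real.rpow_le_rpow_of_exponent_le hX (by linarith [min_le_left (3 / 5 * μ) ν2])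
  have h8 : X ^ (3 / 5 - ν2) ≤ X ^ (3 / 5 - min (3 / 5 * μ) ν2) :=
    Real.rpow_le_rpow_of_exponent_le hX (by linarith [min_le_right (3 / 5 * μ) ν2])
  calc _ ≤ _ := h4
    _ ≤ C1 * X ^ (3 / 5 - min (3 / 5 * μ) ν2) + C2 * X ^ (3 / 5 - min (3 / 5 * μ) ν2) := by
        refine add_le_add (h5.trans ?_) (h6.trans ?_)
        · gcongr
        · gcongr
    _ = _ := by ring

/-- a perfect power is a square or a higher power -/
theorem pp_cases {n : ℕ} (h : PP n) : (∃ x : ℕ, n = x ^ 2) ∨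
    ∃ w m : ℕ, 2 ≤ w ∧ 3 ≤ m ∧ n = w ^ m := by
  obtain ⟨w, m, hw, hm, rfl⟩ := h
  rcases Nat.lt_or_ge 2 m with h3 | h3
  · exact Or.inr ⟨w, m, hw, h3, rfl⟩
  · have : m = 2 := by omega
    exact Or.inl ⟨w, by rw [this]⟩

/-- the triples with a small sum -/
theorem small_sum (k M : ℝ) (hM0 : 0 < M) (hM : M < 2 / 5) : ∃ ν C : ℝ, 0 < ν ∧ 0 < C ∧
    ∀ X : ℝ, 1 ≤ X →
    ((Tr k X (fun t => (t.2.2 : ℝ) ≤ (R3 t : ℝ) ^ M)).ncard : ℝ) ≤ C * X ^ (3 / 5 - ν) := by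
  classical
  have hl2 : 0 < Real.log 2 := Real.log_pos (by norm_num)
  refine ⟨min (3 / 5 - 3 / 2 * M) (1 / 50), 27 + 3 * (30 * (1 / Real.log 2) + 1),
    lt_min (by linarith) (by norm_num), by positivity, fun X hX => ?_⟩
  have hX0 : 0 < X := by linarith
  set Y : ℝ := X ^ M with hY
  have hY1 : 1 ≤ Y := Real.one_le_rpow hX hM0.le
  have hY0 : 0 < Y := by linarith
  set S := (tr_finite k X (fun t => (t.2.2 : ℝ) ≤ (R3 t : ℝ) ^ M)).toFinset with hS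
  have hmem : ∀ t ∈ S, IsT t ∧ Mem PP t ∧ (R3 t : ℝ) ≤ X ∧ (t.2.2 : ℝ) ≤ Y := by
    intro t ht
    rw [hS, Set.Finite.mem_toFinset] at ht
    obtain ⟨a, b, c, d, e⟩ := ht
    refine ⟨a, b, c, e.trans ?_⟩
    exact Real.rpow_le_rpow (by positivity) c hM0.le
  have e0 : (S.card : ℝ) = ((S.filter (fun t => Mem (fun n => ∃ x : ℕ, n = x ^ 2) t)).card : ℝ) +
      ((S.filter (fun t => ¬ Mem (fun n => ∃ x : ℕ, n = x ^ 2) t)).card : ℝ) := by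
    rw [← Nat.cast_add, card_filter_add_card_filter_not]
  have c1 := squares_small X Y hY1 (S.filter (fun t => Mem (fun n => ∃ x : ℕ, n = x ^ 2) t))
    (fun t ht => by
      rw [mem_filter] at ht
      obtain ⟨a, b, c, d⟩ := hmem t ht.1
      exact ⟨a, c, d, ht.2⟩)
  have c2 := cubes Y hY1 (S.filter (fun t => ¬ Mem (fun n => ∃ x : ℕ, n = x ^ 2) t))
    (fun t ht => by
      rw [mem_filter] at ht
      obtain ⟨a, b, c, d⟩ := hmem t ht.1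
      refine ⟨a, d, ?_⟩
      have hn := ht.2
      unfold Mem at hn
      push Not at hn
      rcases b with b | b | b
      · exact Or.inl ((pp_cases b).resolve_left (by push Not; exact hn.1))
      · exact Or.inr (Or.inl ((pp_cases b).resolve_left (by push Not; exact hn.2.1)))
      · exact Or.inr (Or.inr ((pp_cases b).resolve_left (by push Not; exact hn.2.2))))
  have e2 : Real.log Y ≤ X ^ (1 / 30 : ℝ) * 30 := by
    have h3 := Real.log_le_rpow_div hX0.le (by norm_num : (0 : ℝ) < 1 / 30)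
    have h4 : Real.log Y = M * Real.log X := by
      rw [hY, Real.log_rpow hX0]
    have h5 : 0 ≤ Real.log X := Real.log_nonneg hX
    rw [h4]
    have h6 : X ^ (1 / 30 : ℝ) / (1 / 30) = X ^ (1 / 30 : ℝ) * 30 := by ring
    rw [h6] at h3
    have h7 : M * Real.log X ≤ 1 * Real.log X := by
      gcongr
      linarith
    linarith
  have hX30 : 1 ≤ X ^ (1 / 30 : ℝ) := Real.one_le_rpow hX (by norm_num)
  have e3 : Real.log Y / Real.log 2 + 1 ≤ (30 * (1 / Real.log 2) + 1) * X ^ (1 / 30 : ℝ) := by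
    have : Real.log Y / Real.log 2 ≤ X ^ (1 / 30 : ℝ) * 30 / Real.log 2 := by gcongr
    calc Real.log Y / Real.log 2 + 1 ≤ X ^ (1 / 30 : ℝ) * 30 / Real.log 2 + X ^ (1 / 30 : ℝ) := by
          linarith
      _ = _ := by ring
  set ν := min (3 / 5 - 3 / 2 * M) (1 / 50) with hν
  have hν1 : ν ≤ 3 / 5 - 3 / 2 * M := min_le_left _ _
  have hν2 : ν ≤ 1 / 50 := min_le_right _ _
  have e4 : Y ^ (1 / 3 : ℝ) * Y * X ^ (1 / 30 : ℝ) ≤ X ^ (3 / 5 - ν) := by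
    have : Y ^ (1 / 3 : ℝ) * Y * X ^ (1 / 30 : ℝ) = X ^ (M * (1 / 3) + M + 1 / 30) := by
      rw [hY, ← Real.rpow_mul hX0.le, ← Real.rpow_add hX0, ← Real.rpow_add hX0]
    rw [this]
    exact Real.rpow_le_rpow_of_exponent_le hX (by linarith)
  have e5 : Y ^ (3 / 2 : ℝ) ≤ X ^ (3 / 5 - ν) := by
    rw [hY, ← Real.rpow_mul hX0.le]
    exact Real.rpow_le_rpow_of_exponent_le hX (by linarith)
  have c2' : 3 * (Y ^ (1 / 3 : ℝ) * (Real.log Y / Real.log 2 + 1)) * Y ≤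
      3 * (30 * (1 / Real.log 2) + 1) * X ^ (3 / 5 - ν) := by
    calc 3 * (Y ^ (1 / 3 : ℝ) * (Real.log Y / Real.log 2 + 1)) * Y
        ≤ 3 * (Y ^ (1 / 3 : ℝ) * ((30 * (1 / Real.log 2) + 1) * X ^ (1 / 30 : ℝ))) * Y := by
          gcongr
      _ = 3 * (30 * (1 / Real.log 2) + 1) * (Y ^ (1 / 3 : ℝ) * Y * X ^ (1 / 30 : ℝ)) := by ring
      _ ≤ _ := by gcongr
  have e6 : ((Tr k X (fun t => (t.2.2 : ℝ) ≤ (R3 t : ℝ) ^ M)).ncard : ℝ) = (S.card : ℝ) := by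
    rw [Set.ncard_eq_toFinset_card _ (tr_finite k X _)]
  rw [e6, e0]
  calc _ ≤ 27 * X ^ (3 / 5 - ν) + 3 * (30 * (1 / Real.log 2) + 1) * X ^ (3 / 5 - ν) := by
        refine add_le_add (c1.trans ?_) (c2.trans c2')
        gcongr
    _ = _ := by ring

/-- the law -/
theorem law (k δ : ℝ) (hδ : 0 < δ) : ∃ ν C : ℝ, 0 < ν ∧ 0 < C ∧ ∀ X : ℝ, 1 ≤ X →
    ((Tr k X (fun t => ¬ ((R3 t : ℝ) ^ (2 / 5 - δ) < (t.2.2 : ℝ) ∧
      (t.2.2 : ℝ) < (R3 t : ℝ) ^ (2 / 5 + δ)))).ncard : ℝ) ≤ C * X ^ (3 / 5 - ν) := by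
  set d : ℝ := min δ (1 / 5) with hd
  have hd0 : 0 < d := lt_min hδ (by norm_num)
  have hd1 : d ≤ δ := min_le_left _ _
  have hd2 : d ≤ 1 / 5 := min_le_right _ _
  obtain ⟨ν1, C1, hν1, hC1, h1⟩ := exceptions k (2 / 5 + d) (by linarith)
  obtain ⟨ν2, C2, hν2, hC2, h2⟩ := small_sum k (2 / 5 - d) (by linarith) (by linarith)
  refine ⟨min ν1 ν2, C1 + C2, lt_min hν1 hν2, by positivity, fun X hX => ?_⟩
  have hsub : Tr k X (fun t => ¬ ((R3 t : ℝ) ^ (2 / 5 - δ) < (t.2.2 : ℝ) ∧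
      (t.2.2 : ℝ) < (R3 t : ℝ) ^ (2 / 5 + δ))) ⊆
      Tr k X (fun t => (R3 t : ℝ) ^ (2 / 5 + d) ≤ (t.2.2 : ℝ)) ∪
      Tr k X (fun t => (t.2.2 : ℝ) ≤ (R3 t : ℝ) ^ (2 / 5 - d)) := by
    rintro t ⟨a, b, c, e, f⟩
    have hR : (1 : ℝ) ≤ (R3 t : ℝ) := by
      have : 0 < R3 t := Finset.prod_pos (fun p hp => (Nat.prime_of_mem_primeFactors hp).pos)
      exact_mod_cast this
    have g1 : (R3 t : ℝ) ^ (2 / 5 - δ) ≤ (R3 t : ℝ) ^ (2 / 5 - d) :=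
      Real.rpow_le_rpow_of_exponent_le hR (by linarith)
    have g2 : (R3 t : ℝ) ^ (2 / 5 + d) ≤ (R3 t : ℝ) ^ (2 / 5 + δ) :=
      Real.rpow_le_rpow_of_exponent_le hR (by linarith)
    rw [not_and_or, not_lt, not_lt] at f
    rcases f with f | f
    · exact Or.inr ⟨a, b, c, e, f.trans g1⟩
    · exact Or.inl ⟨a, b, c, e, g2.trans f⟩
  have h3 := (Set.ncard_le_ncard hsub ((tr_finite _ _ _).union (tr_finite _ _ _))).trans
    (Set.ncard_union_le _ _)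
  have h4 : ((Tr k X (fun t => ¬ ((R3 t : ℝ) ^ (2 / 5 - δ) < (t.2.2 : ℝ) ∧
      (t.2.2 : ℝ) < (R3 t : ℝ) ^ (2 / 5 + δ)))).ncard : ℝ) ≤
      ((Tr k X (fun t => (R3 t : ℝ) ^ (2 / 5 + d) ≤ (t.2.2 : ℝ))).ncard : ℝ) +
      ((Tr k X (fun t => (t.2.2 : ℝ) ≤ (R3 t : ℝ) ^ (2 / 5 - d))).ncard : ℝ) := by
    exact_mod_cast h3
  have h7 : X ^ (3 / 5 - ν1) ≤ X ^ (3 / 5 - min ν1 ν2) :=
    Real.rpow_le_rpow_of_exponent_le hX (by linarith [min_le_left ν1 ν2])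
  have h8 : X ^ (3 / 5 - ν2) ≤ X ^ (3 / 5 - min ν1 ν2) :=
    Real.rpow_le_rpow_of_exponent_le hX (by linarith [min_le_right ν1 ν2])
  calc _ ≤ _ := h4
    _ ≤ C1 * X ^ (3 / 5 - min ν1 ν2) + C2 * X ^ (3 / 5 - min ν1 ν2) := by
        refine add_le_add ((h1 X hX).trans ?_) ((h2 X hX).trans ?_)
        · gcongr
        · gcongr
    _ = _ := by ring

/-- the lower bound -/
theorem lower' (k : ℝ) (hk : 2 / 5 ≤ k) : ∃ c X₀ : ℝ, 0 < c ∧ ∀ X : ℝ, X₀ ≤ X →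
    c * X ^ (3 / 5 : ℝ) ≤ ((Tr k X (fun _ => True)).ncard : ℝ) := by
  obtain ⟨c, X₀, hc, h⟩ := lower k hk
  refine ⟨c, X₀, hc, fun X hX => (h X hX).trans ?_⟩
  have hsub : {t : ℕ × ℕ × ℕ | IsT t ∧ (∃ x : ℕ, 2 ≤ x ∧ t.2.2 = x ^ 2) ∧
      (R3 t : ℝ) ≤ X ∧ (t.2.2 : ℝ) ≤ X ^ k} ⊆ Tr k X (fun _ => True) := by
    rintro t ⟨a, ⟨x, hx2, hx⟩, c, d⟩
    exact ⟨a, Or.inr (Or.inr ⟨x, 2, hx2, le_rfl, hx⟩), c, d, trivial⟩
  exact_mod_cast Set.ncard_le_ncard hsub (tr_finite _ _ _)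

end Pool.Agent.T2h82.Sq
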