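import Pool.Agent.T2h82.Rankin2
import Pool.Agent.T2h82.Triv

/-!
# Triples with a square member: one block
-/

set_option autoImplicit false

namespace Pool.Agent.T2h82.Sq

open Finset
open Pool.Agent.H328R2.ABC (rad rad_pos)
open Pool.Agent.T2h82 (pw pw_pos pw_dvd HH card_class card_sq_le gp gp_nonneg sum_gp pful_pw Pful
  mul_rad_eq sr sr_pos card_sr card_natAbs pw_le_sr)

/-- `x ^ 2 - u` -/
def gf (q : ℤ × ℤ) : ℤ := q.1 ^ 2 - q.2

/-- the pairs `(x, u)` with `rad (x u (x ^ 2 - u)) ≤ X` -/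
structure Ad (X : ℝ) (q : ℤ × ℤ) : Prop where
  pos : 0 < q.1
  n0 : q.2 ≠ 0
  f0 : gf q ≠ 0
  cop : IsCoprime q.1 q.2
  rad_le : (rad q.1.natAbs : ℝ) * rad q.2.natAbs * rad (gf q).natAbs ≤ X

theorem Ad.cop_uf {X : ℝ} {q : ℤ × ℤ} (h : Ad X q) : IsCoprime q.2 (gf q) := by
  have h1 : IsCoprime q.2 (q.1 ^ 2) := (h.cop.symm).pow_right
  unfold gf
  obtain ⟨a, b, hab⟩ := h1
  exact ⟨a + b, b, by linear_combination hab⟩

theorem row (a : ℤ) (w z : ℕ) (hw : 0 < w) (hz : 0 < z) (hc : Nat.Coprime w z)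
    (Y : ℝ) (hY : 0 ≤ Y) (S : Finset ℤ)
    (h : ∀ n ∈ S, (w : ℤ) ∣ n ∧ (z : ℤ) ∣ gf (a, n) ∧
      ((n.natAbs : ℝ) ≤ Y ∨ ((gf (a, n)).natAbs : ℝ) ≤ Y)) :
    (S.card : ℝ) ≤ 4 * (Y / ((w : ℝ) * z)) + 2 := by
  classical
  have hcl : ∀ y ∈ S, ∀ y' ∈ S, (((w * z : ℕ) : ℤ)) ∣ y - y' := by
    intro y hy y' hy'
    obtain ⟨h1, h2, -⟩ := h y hy
    obtain ⟨h1', h2', -⟩ := h y' hy'
    have h3 : (z : ℤ) ∣ y - y' := by
      have : y - y' = gf (a, y') - gf (a, y) := by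
        unfold gf
        ring
      rw [this]
      exact dvd_sub h2' h2
    push_cast
    refine IsCoprime.mul_dvd ?_ (dvd_sub h1 h1') h3
    exact Nat.isCoprime_iff_coprime.2 hc
  have e1 := card_class (S.filter (fun n => ((n.natAbs : ℕ) : ℝ) ≤ Y)) (w * z)
    (Nat.mul_pos hw hz) (-Y) (2 * Y) (by positivity) (fun y hy => by
      have h6 := (mem_filter.1 hy).2
      rw [Nat.cast_natAbs] at h6
      push_cast at h6
      rw [abs_le] at h6
      constructor <;> linarith [h6.1, h6.2])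
    (fun y hy y' hy' => hcl y (mem_filter.1 hy).1 y' (mem_filter.1 hy').1)
  have e2 := card_class (S.filter (fun n => ¬ ((n.natAbs : ℕ) : ℝ) ≤ Y)) (w * z)
    (Nat.mul_pos hw hz) ((a : ℝ) ^ 2 - Y) (2 * Y) (by positivity) (fun y hy => by
      have h6 := (mem_filter.1 hy)
      have h7 := (h y h6.1).2.2
      rcases h7 with h7 | h7
      · exact absurd h7 h6.2
      · rw [Nat.cast_natAbs] at h7
        unfold gf at h7
        push_cast at h7
        rw [abs_le] at h7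
        constructor
        · linarith [h7.1, h7.2]
        · linarith [h7.1, h7.2])
    (fun y hy y' hy' => hcl y (mem_filter.1 hy).1 y' (mem_filter.1 hy').1)
  have e3 : (S.card : ℝ) = ((S.filter (fun n => ((n.natAbs : ℕ) : ℝ) ≤ Y)).card : ℝ) +
      ((S.filter (fun n => ¬ ((n.natAbs : ℕ) : ℝ) ≤ Y)).card : ℝ) := by
    rw [← Nat.cast_add, card_filter_add_card_filter_not]
  push_cast at e1 e2
  rw [e3]
  have : 2 * Y / ((w : ℝ) * z) = 2 * (Y / ((w : ℝ) * z)) := by ring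
  rw [this] at e1 e2
  linarith

theorem HH_le {q : ℤ × ℤ} : HH q ≤ 2 * max |q.2| |gf q| := by
  have h1 : q.1 ^ 2 = gf q + q.2 := by
    unfold gf
    ring
  have h2 := le_max_left |q.2| |gf q|
  have h3 := le_max_right |q.2| |gf q|
  have h4 := le_abs_self q.2
  have h5 := le_abs_self (gf q)
  have h6 := abs_nonneg q.2
  unfold HH
  refine max_le ?_ ?_
  · rw [h1]
    linarith
  · linarith

/-- the sum of `j ^ (-s)` -/
theorem sum_rpow (s : ℝ) (hs0 : 0 < s) (hs1 : s < 1) (n : ℕ) :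
    ∑ j ∈ Icc 1 n, (j : ℝ) ^ (-s) ≤ (n : ℝ) ^ (1 - s) / (1 - s) := by
  have h1s : 0 < 1 - s := by linarith
  induction n with
  | zero =>
    simp
    positivity
  | succ n ih =>
    rw [sum_Icc_succ_top (by omega)]
    have hn1 : (0 : ℝ) < (n : ℝ) + 1 := by positivity
    push_cast
    have key : (n : ℝ) ^ (1 - s) ≤ ((n : ℝ) + 1) ^ (1 - s) - (1 - s) * ((n : ℝ) + 1) ^ (-s) := by
      have e1 : (n : ℝ) = ((n : ℝ) + 1) * (1 + (-(1 / ((n : ℝ) + 1)))) := by
        field_simp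
        ring
      have e2 : -1 ≤ -(1 / ((n : ℝ) + 1)) := by
        rw [neg_le_neg_iff, div_le_one hn1]
        have : (0 : ℝ) ≤ n := Nat.cast_nonneg n
        linarith
      have e3 := rpow_one_add_le_one_add_mul_self e2 h1s.le (by linarith : 1 - s ≤ 1)
      calc (n : ℝ) ^ (1 - s) = (((n : ℝ) + 1) * (1 + (-(1 / ((n : ℝ) + 1))))) ^ (1 - s) := by
            rw [← e1]
        _ = ((n : ℝ) + 1) ^ (1 - s) * (1 + (-(1 / ((n : ℝ) + 1)))) ^ (1 - s) := by
            rw [Real.mul_rpow hn1.le (by linarith)]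
        _ ≤ ((n : ℝ) + 1) ^ (1 - s) * (1 + (1 - s) * (-(1 / ((n : ℝ) + 1)))) := by
            gcongr
        _ = ((n : ℝ) + 1) ^ (1 - s) - (1 - s) * (((n : ℝ) + 1) ^ (1 - s) / ((n : ℝ) + 1)) := by
            ring
        _ = _ := by
            rw [← Real.rpow_sub_one hn1.ne']
            congr 3
            ring
    have e4 : (n : ℝ) ^ (1 - s) / (1 - s) ≤
        (((n : ℝ) + 1) ^ (1 - s) - (1 - s) * ((n : ℝ) + 1) ^ (-s)) / (1 - s) :=
      div_le_div_of_nonneg_right key h1s.le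
    have e5 : (((n : ℝ) + 1) ^ (1 - s) - (1 - s) * ((n : ℝ) + 1) ^ (-s)) / (1 - s) =
        ((n : ℝ) + 1) ^ (1 - s) / (1 - s) - ((n : ℝ) + 1) ^ (-s) := by
      field_simp
    linarith

/-- the sum of `x ^ (-s)` over the multiples of `v` -/
theorem sum_mult (s : ℝ) (hs0 : 0 < s) (hs1 : s < 1) (v : ℕ) (hv : 0 < v) (Z : ℝ) (hZ : 0 ≤ Z)
    (F : Finset ℤ) (h : ∀ x ∈ F, 0 < x ∧ (v : ℤ) ∣ x ∧ (x : ℝ) ≤ Z) :
    ∑ x ∈ F, (x : ℝ) ^ (-s) ≤ Z ^ (1 - s) / (1 - s) / v := by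
  classical
  have h1s : 0 < 1 - s := by linarith
  have hv0 : (0 : ℝ) < v := by exact_mod_cast hv
  set n : ℕ := ⌊Z / v⌋₊ with hn
  have hmap : ∀ x ∈ F, (x / v).toNat ∈ Icc 1 n := by
    intro x hx
    obtain ⟨h1, ⟨y, rfl⟩, h3⟩ := h x hx
    have hvz : (0 : ℤ) < v := by exact_mod_cast hv
    have hy : 0 < y := by
      by_contra hcon
      push Not at hcon
      nlinarith
    rw [Int.mul_ediv_cancel_left _ hvz.ne', mem_Icc]
    constructor
    · omega
    · rw [hn]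
      refine Nat.le_floor ?_
      rw [le_div_iff₀ hv0]
      have h4 : ((y.toNat : ℕ) : ℝ) = (y : ℝ) := by
        have : ((y.toNat : ℕ) : ℤ) = y := Int.toNat_of_nonneg hy.le
        exact_mod_cast this
      rw [h4]
      push_cast at h3
      linarith
  have hinj : Set.InjOn (fun x : ℤ => (x / v).toNat) F := by
    intro x hx x' hx' hxx
    obtain ⟨h1, ⟨y, rfl⟩, h3⟩ := h x hx
    obtain ⟨h1', ⟨y', rfl⟩, h3'⟩ := h x' hx'
    have hvz : (0 : ℤ) < v := by exact_mod_cast hv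
    simp only at hxx
    rw [Int.mul_ediv_cancel_left _ hvz.ne', Int.mul_ediv_cancel_left _ hvz.ne'] at hxx
    have hy : 0 < y := by
      by_contra hcon
      push Not at hcon
      nlinarith
    have hy' : 0 < y' := by
      by_contra hcon
      push Not at hcon
      nlinarith
    have : y = y' := by omega
    rw [this]
  calc ∑ x ∈ F, (x : ℝ) ^ (-s)
      = ∑ x ∈ F, (v : ℝ) ^ (-s) * (((x / v).toNat : ℕ) : ℝ) ^ (-s) := by
        refine sum_congr rfl (fun x hx => ?_)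
        obtain ⟨h1, ⟨y, rfl⟩, h3⟩ := h x hx
        have hvz : (0 : ℤ) < v := by exact_mod_cast hv
        have hy : 0 < y := by
          by_contra hcon
          push Not at hcon
          nlinarith
        rw [Int.mul_ediv_cancel_left _ hvz.ne']
        have h4 : ((y.toNat : ℕ) : ℝ) = (y : ℝ) := by
          have : ((y.toNat : ℕ) : ℤ) = y := Int.toNat_of_nonneg hy.le
          exact_mod_cast this
        have hyr : (0 : ℝ) ≤ y := by exact_mod_cast hy.le
        rw [h4]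
        push_cast
        rw [Real.mul_rpow hv0.le hyr]
    _ = ∑ j ∈ F.image (fun x : ℤ => (x / v).toNat), (v : ℝ) ^ (-s) * (j : ℝ) ^ (-s) := by
        rw [sum_image hinj]
    _ ≤ ∑ j ∈ Icc 1 n, (v : ℝ) ^ (-s) * (j : ℝ) ^ (-s) := by
        apply sum_le_sum_of_subset_of_nonneg
        · intro j hj
          rw [mem_image] at hj
          obtain ⟨x, hx, rfl⟩ := hj
          exact hmap x hx
        · intro j _ _
          positivity
    _ = (v : ℝ) ^ (-s) * ∑ j ∈ Icc 1 n, (j : ℝ) ^ (-s) := by rw [mul_sum]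
    _ ≤ (v : ℝ) ^ (-s) * ((n : ℝ) ^ (1 - s) / (1 - s)) := by
        gcongr
        exact sum_rpow s hs0 hs1 n
    _ ≤ (v : ℝ) ^ (-s) * ((Z / v) ^ (1 - s) / (1 - s)) := by
        have : (n : ℝ) ≤ Z / v := Nat.floor_le (by positivity)
        gcongr
    _ = _ := by
        rw [Real.div_rpow hZ hv0.le]
        have e : (v : ℝ) ^ (1 - s) = (v : ℝ) * (v : ℝ) ^ (-s) := by
          rw [sub_eq_add_neg, Real.rpow_add hv0, Real.rpow_one]
        rw [e]
        have : (v : ℝ) ^ (-s) ≠ 0 := by positivity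
        field_simp

end Pool.Agent.T2h82.Sq
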