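import Pool.Agent.T2h82.Sq.Row

/-!
# Triples with a square member: blocks and the dyadic sum
-/

set_option autoImplicit false

namespace Pool.Agent.T2h82.Sq

open Finset
open Pool.Agent.H328R2.ABC (rad rad_pos)
open Pool.Agent.T2h82 (pw pw_pos pw_dvd HH card_class card_sq_le gp gp_nonneg sum_gp pful_pw Pful
  mul_rad_eq sr sr_pos card_sr card_natAbs pw_le_sr)

/-- one block with given powerful parts -/
theorem blk (T Q : ℝ) (hT : 1 ≤ T) (s : ℝ) (hs0 : 0 < s) (hs1 : s < 1) (hQ : 0 < Q) (v w z : ℕ)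
    (hv : 0 < v) (hw : 0 < w) (hz : 0 < z)
    (S : Finset (ℤ × ℤ)) (h : ∀ q ∈ S, 0 < q.1 ∧ q.2 ≠ 0 ∧ gf q ≠ 0 ∧ IsCoprime q.2 (gf q) ∧
      pw q.1.natAbs = v ∧ pw q.2.natAbs = w ∧ pw (gf q).natAbs = z ∧ T < HH q ∧
      ((HH q : ℤ) : ℝ) ≤ 2 * T ∧
      (q.1.natAbs : ℝ) * q.2.natAbs * (gf q).natAbs ≤ Q) :
    (S.card : ℝ) ≤ 16 / (1 - s) * (T ^ (3 / 2 - 5 / 2 * s) * Q ^ s / ((v : ℝ) * w * z)) + 6 * √T := by
  classical
  have hT0 : 0 < T := by linarith
  have h1s : 0 < 1 - s := by linarith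
  have hv0 : (0 : ℝ) < v := by exact_mod_cast hv
  have hw0 : (0 : ℝ) < w := by exact_mod_cast hw
  have hz0 : (0 : ℝ) < z := by exact_mod_cast hz
  rcases S.eq_empty_or_nonempty with h0 | ⟨q0, hq0⟩
  · rw [h0, card_empty]
    push_cast
    positivity
  obtain ⟨g0, g1, g2, g3, -, g4, g5, -, -, -⟩ := h q0 hq0
  have hdw : w ∣ q0.2.natAbs := by
    rw [← g4]
    exact pw_dvd (by omega)
  have hdz : z ∣ (gf q0).natAbs := by
    rw [← g5]
    exact pw_dvd (by omega)
  have hcop : Nat.Coprime w z := by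
    have : Nat.Coprime q0.2.natAbs (gf q0).natAbs := Int.isCoprime_iff_gcd_eq_one.1 g3
    exact Nat.Coprime.of_dvd hdw hdz this
  -- the bound of the smaller entry
  set Y : ℤ → ℝ := fun x => 2 * (T ^ (1 - 2 * s) * Q ^ s * (x : ℝ) ^ (-s)) with hY
  have hmin : ∀ q ∈ S, (q.2.natAbs : ℝ) ≤ Y q.1 ∨ ((gf q).natAbs : ℝ) ≤ Y q.1 := by
    intro q hq
    obtain ⟨h0, h1, h2, h3, -, -, -, h6, h7, h8⟩ := h q hq
    have hx0 : (0 : ℝ) < q.1 := by exact_mod_cast h0
    have hxa : (q.1.natAbs : ℝ) = q.1 := by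
      rw [Nat.cast_natAbs, abs_of_pos h0]
    have e1 : (T : ℝ) < 2 * max (q.2.natAbs : ℝ) ((gf q).natAbs : ℝ) := by
      have e2 : ((HH q : ℤ) : ℝ) ≤ ((2 * max |q.2| |gf q| : ℤ) : ℝ) := by
        exact_mod_cast HH_le
      push_cast at e2
      rw [Nat.cast_natAbs, Nat.cast_natAbs]
      push_cast
      linarith
    have e3 : ((q.2.natAbs : ℕ) : ℝ) ≤ 2 * T := by
      have e2 : |q.2| ≤ HH q := le_max_right _ _
      have e2' : ((|q.2| : ℤ) : ℝ) ≤ ((HH q : ℤ) : ℝ) := by exact_mod_cast e2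
      rw [Nat.cast_natAbs]
      linarith
    have hn1 : (0 : ℝ) < q.2.natAbs := by exact_mod_cast (by omega : 0 < q.2.natAbs)
    have hf1 : (0 : ℝ) < (gf q).natAbs := by exact_mod_cast (by omega : 0 < (gf q).natAbs)
    rw [hxa, mul_assoc] at h8
    set a : ℝ := (q.2.natAbs : ℝ) with ha
    set b : ℝ := ((gf q).natAbs : ℝ) with hb
    set x : ℝ := (q.1 : ℝ) with hx
    have hmm : min a b * max a b ≤ Q / x := by
      rw [min_mul_max, le_div_iff₀ hx0]
      linarith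
    have hmn : 0 < min a b := lt_min hn1 hf1
    have c0 : 0 < min a b / 2 := by positivity
    have c1 : min a b / 2 ≤ T := by
      have := min_le_left a b
      linarith
    have c2 : min a b / 2 ≤ Q / x / T := by
      rw [le_div_iff₀ hT0]
      have : min a b / 2 * T ≤ min a b / 2 * (2 * max a b) := by gcongr
      linarith
    have c3 : min a b / 2 ≤ T ^ (1 - s) * (Q / x / T) ^ s := by
      calc min a b / 2 = (min a b / 2) ^ (1 - s) * (min a b / 2) ^ s := by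
            rw [← Real.rpow_add c0]
            simp
        _ ≤ T ^ (1 - s) * (Q / x / T) ^ s := by
            apply mul_le_mul
            · exact Real.rpow_le_rpow c0.le c1 (by linarith)
            · exact Real.rpow_le_rpow c0.le c2 hs0.le
            · positivity
            · positivity
    have c4 : T ^ (1 - s) * (Q / x / T) ^ s = T ^ (1 - 2 * s) * Q ^ s * x ^ (-s) := by
      rw [Real.div_rpow (by positivity) hT0.le, Real.div_rpow hQ.le hx0.le, Real.rpow_neg hx0.le]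
      have : T ^ (1 - s) = T ^ (1 - 2 * s) * T ^ s := by
        rw [← Real.rpow_add hT0]
        congr 1
        ring
      rw [this]
      have : T ^ s ≠ 0 := by positivity
      field_simp
    rw [c4] at c3
    have b3 : min a b ≤ Y q.1 := by
      rw [hY]
      simp only
      linarith
    rcases min_choice a b with hm | hm
    · left
      rw [← hm]
      exact b3
    · right
      rw [← hm]
      exact b3
  have hYpos : ∀ q ∈ S, 0 < Y q.1 := by
    intro q hq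
    obtain ⟨h0, -⟩ := h q hq
    have hx0 : (0 : ℝ) < q.1 := by exact_mod_cast h0
    rw [hY]
    simp only
    positivity
  -- fibres over x
  have hfib : ∀ a ∈ S.image Prod.fst, ((S.filter (fun q => q.1 = a)).card : ℝ) ≤
      4 * (Y a / ((w : ℝ) * z)) + 2 := by
    intro a ha
    have e1 : (S.filter (fun q => q.1 = a)).card =
        ((S.filter (fun q => q.1 = a)).image Prod.snd).card := by
      rw [card_image_of_injOn]
      intro q hq q' hq' hqq
      rw [mem_coe, mem_filter] at hq hq'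
      exact Prod.ext (hq.2.trans hq'.2.symm) hqq
    rw [e1]
    have hYa : 0 < Y a := by
      rw [mem_image] at ha
      obtain ⟨q, hq, rfl⟩ := ha
      exact hYpos q hq
    refine row a w z hw hz hcop (Y a) hYa.le _ ?_
    intro n hn
    rw [mem_image] at hn
    obtain ⟨q, hq, rfl⟩ := hn
    rw [mem_filter] at hq
    obtain ⟨h0, h1, h2, h3, -, h4, h5, h6, h7, h8⟩ := h q hq.1
    have eq : (a, q.2) = q := Prod.ext hq.2.symm rfl
    refine ⟨?_, ?_, ?_⟩
    · have := pw_dvd (n := q.2.natAbs) (by omega)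
      rw [h4] at this
      exact Int.natCast_dvd.2 this
    · rw [eq]
      have := pw_dvd (n := (gf q).natAbs) (by omega)
      rw [h5] at this
      exact Int.natCast_dvd.2 this
    · rw [eq, ← hq.2]
      exact hmin q hq.1
  have hsq : ∀ a ∈ S.image Prod.fst, 0 < a ∧ (v : ℤ) ∣ a ∧ (a : ℝ) ^ 2 ≤ 2 * T := by
    intro a ha
    rw [mem_image] at ha
    obtain ⟨q, hq, rfl⟩ := ha
    obtain ⟨h0, -, -, -, h3, -, -, -, h7, -⟩ := h q hq
    have e2 : q.1 ^ 2 ≤ HH q := le_max_left _ _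
    have e2' : ((q.1 ^ 2 : ℤ) : ℝ) ≤ ((HH q : ℤ) : ℝ) := by exact_mod_cast e2
    push_cast at e2'
    refine ⟨h0, ?_, by linarith⟩
    have := pw_dvd (n := q.1.natAbs) (by omega)
    rw [h3] at this
    exact Int.natCast_dvd.2 this
  have himg : ((S.image Prod.fst).card : ℝ) ≤ 3 * √T := by
    have e1 := card_class (S.image Prod.fst) 1 one_pos 0 (√(2 * T)) (by positivity)
      (fun y hy => by
        obtain ⟨h1, h2, h3⟩ := hsq y hy
        have h4 : (0 : ℝ) < y := by exact_mod_cast h1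
        refine ⟨h4.le, ?_⟩
        rw [zero_add]
        exact Real.le_sqrt_of_sq_le h3) (fun y _ z _ => by simp)
    have e2 : √(2 * T) ≤ 3 / 2 * √T := by
      rw [Real.sqrt_mul (by norm_num)]
      have : √2 ≤ 3 / 2 := by
        rw [Real.sqrt_le_left (by norm_num)]
        norm_num
      gcongr
    have e3 : 1 ≤ √T := by
      rw [Real.one_le_sqrt]
      exact hT
    push_cast at e1
    linarith
  have hsum : ∑ a ∈ S.image Prod.fst, (a : ℝ) ^ (-s) ≤ (√(2 * T)) ^ (1 - s) / (1 - s) / v := by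
    refine sum_mult s hs0 hs1 v hv (√(2 * T)) (by positivity) _ (fun a ha => ?_)
    obtain ⟨h1, h2, h3⟩ := hsq a ha
    exact ⟨h1, h2, Real.le_sqrt_of_sq_le h3⟩
  have hcard : (S.card : ℝ) = ∑ a ∈ S.image Prod.fst, ((S.filter (fun q => q.1 = a)).card : ℝ) := by
    rw [card_eq_sum_card_image Prod.fst S]
    push_cast
    rfl
  have hpow : (√(2 * T)) ^ (1 - s) ≤ 2 * T ^ ((1 - s) / 2) := by
    rw [Real.sqrt_eq_rpow, ← Real.rpow_mul (by positivity), Real.mul_rpow (by norm_num) hT0.le]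
    have e1 : (1 : ℝ) / 2 * (1 - s) = (1 - s) / 2 := by ring
    rw [e1]
    have e2 : (2 : ℝ) ^ ((1 - s) / 2) ≤ 2 := by
      calc (2 : ℝ) ^ ((1 - s) / 2) ≤ 2 ^ (1 : ℝ) :=
            Real.rpow_le_rpow_of_exponent_le (by norm_num) (by linarith)
        _ = 2 := Real.rpow_one 2
    gcongr
  rw [hcard]
  calc ∑ a ∈ S.image Prod.fst, ((S.filter (fun q => q.1 = a)).card : ℝ)
      ≤ ∑ a ∈ S.image Prod.fst, (4 * (Y a / ((w : ℝ) * z)) + 2) := sum_le_sum hfib
    _ = 8 * (T ^ (1 - 2 * s) * Q ^ s) / ((w : ℝ) * z) * ∑ a ∈ S.image Prod.fst, (a : ℝ) ^ (-s) +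
          2 * ((S.image Prod.fst).card : ℝ) := by
        rw [sum_add_distrib, sum_const, nsmul_eq_mul, mul_sum]
        congr 1
        · refine sum_congr rfl (fun a _ => ?_)
          rw [hY]
          simp only
          ring
        · ring
    _ ≤ 8 * (T ^ (1 - 2 * s) * Q ^ s) / ((w : ℝ) * z) * (2 * T ^ ((1 - s) / 2) / (1 - s) / v) +
          2 * (3 * √T) := by
        gcongr
        refine hsum.trans ?_
        gcongr
    _ = 16 / (1 - s) * ((T ^ (1 - 2 * s) * T ^ ((1 - s) / 2)) * Q ^ s / ((v : ℝ) * w * z)) +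
          6 * √T := by
        field_simp
        ring
    _ = _ := by
        rw [← Real.rpow_add hT0]
        congr 5
        ring

theorem dyad (s : ℝ) (hs0 : 0 < s) (hs1 : s < 1) : ∃ C : ℝ, 0 < C ∧ ∀ X T W : ℝ, 0 < X → 1 ≤ T →
    1 ≤ W → ∀ S : Finset (ℤ × ℤ), (∀ q ∈ S, Ad X q ∧ T < HH q ∧ ((HH q : ℤ) : ℝ) ≤ 2 * T ∧
      (pw q.1.natAbs : ℝ) ≤ W ∧ (pw q.2.natAbs : ℝ) ≤ W ∧ (pw (gf q).natAbs : ℝ) ≤ W) →
    (S.card : ℝ) ≤ C * (X ^ s * T ^ (3 / 2 - 5 / 2 * s) + √T * W ^ 3) := by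
  classical
  obtain ⟨C, hC, hsum⟩ := sum_gp s hs1
  have h1s : 0 < 1 - s := by linarith
  refine ⟨16 / (1 - s) * C ^ 3 + 6, by positivity, ?_⟩
  intro X T W hX hT hW S hS
  have hT0 : 0 < T := by linarith
  set P : Finset ℕ := Icc 1 ⌊W⌋₊ with hP
  set typ : ℤ × ℤ → ℕ × ℕ × ℕ := fun q => (pw q.1.natAbs, pw q.2.natAbs, pw (gf q).natAbs) with htyp
  have hfib : ∀ p ∈ P ×ˢ P ×ˢ P, ((S.filter (fun q => typ q = p)).card : ℝ) ≤
      16 / (1 - s) * (T ^ (3 / 2 - 5 / 2 * s) * X ^ s *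
        (gp s p.1 * (gp s p.2.1 * gp s p.2.2))) + 6 * √T := by
    rintro ⟨v, w, z⟩ hp
    rw [mem_product, mem_product, hP, mem_Icc, mem_Icc, mem_Icc] at hp
    obtain ⟨⟨hv, -⟩, ⟨hw, -⟩, ⟨hz, -⟩⟩ := hp
    rcases (S.filter (fun q => typ q = (v, w, z))).eq_empty_or_nonempty with h0 | ⟨q0, hq0⟩
    · rw [h0, card_empty]
      have := gp_nonneg s v
      have := gp_nonneg s w
      have := gp_nonneg s z
      push_cast
      positivity
    have hv0 : (0 : ℝ) < v := by exact_mod_cast hv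
    have hw0 : (0 : ℝ) < w := by exact_mod_cast hw
    have hz0 : (0 : ℝ) < z := by exact_mod_cast hz
    have hrv : (0 : ℝ) < rad v := by exact_mod_cast rad_pos v
    have hrw : (0 : ℝ) < rad w := by exact_mod_cast rad_pos w
    have hrz : (0 : ℝ) < rad z := by exact_mod_cast rad_pos z
    set Q : ℝ := X * (v / rad v) * (w / rad w) * (z / rad z) with hQ
    have hQ0 : 0 < Q := by positivity
    have hb := blk T Q hT s hs0 hs1 hQ0 v w z hv hw hz
      (S.filter (fun q => typ q = (v, w, z))) (by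
        intro q hq
        rw [mem_filter, htyp, Prod.mk.injEq, Prod.mk.injEq] at hq
        obtain ⟨hq1, hq2, hq3, hq4⟩ := hq
        obtain ⟨ha, h2, h3, -, -, -⟩ := hS q hq1
        refine ⟨ha.pos, ha.n0, ha.f0, ha.cop_uf, hq2, hq3, hq4, h2, h3, ?_⟩
        have e0 := mul_rad_eq (n := q.1.natAbs) (by have := ha.pos; omega)
        have e1 := mul_rad_eq (n := q.2.natAbs) (by have := ha.n0; omega)
        have e2 := mul_rad_eq (n := (gf q).natAbs) (by have := ha.f0; omega)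
        rw [hq2] at e0
        rw [hq3] at e1
        rw [hq4] at e2
        have e0' : (q.1.natAbs : ℝ) * rad v = rad q.1.natAbs * v := by exact_mod_cast e0
        have e1' : (q.2.natAbs : ℝ) * rad w = rad q.2.natAbs * w := by exact_mod_cast e1
        have e2' : ((gf q).natAbs : ℝ) * rad z = rad (gf q).natAbs * z := by exact_mod_cast e2
        have e3 : (q.1.natAbs : ℝ) = rad q.1.natAbs * (v / rad v) := by
          rw [mul_div_assoc', eq_div_iff hrv.ne']
          exact e0'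
        have e4 : (q.2.natAbs : ℝ) = rad q.2.natAbs * (w / rad w) := by
          rw [mul_div_assoc', eq_div_iff hrw.ne']
          exact e1'
        have e5 : ((gf q).natAbs : ℝ) = rad (gf q).natAbs * (z / rad z) := by
          rw [mul_div_assoc', eq_div_iff hrz.ne']
          exact e2'
        calc (q.1.natAbs : ℝ) * q.2.natAbs * (gf q).natAbs
            = (rad q.1.natAbs * rad q.2.natAbs * rad (gf q).natAbs) *
                ((v / rad v) * (w / rad w) * (z / rad z)) := by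
              rw [e5]
              conv_lhs => rw [e3, e4]
              ring
          _ ≤ X * ((v / rad v) * (w / rad w) * (z / rad z)) := by
              apply mul_le_mul_of_nonneg_right ha.rad_le
              positivity
          _ = Q := by
              rw [hQ]
              ring)
    refine hb.trans (le_of_eq ?_)
    rw [mem_filter, htyp, Prod.mk.injEq, Prod.mk.injEq] at hq0
    obtain ⟨hq1, hq2, hq3, hq4⟩ := hq0
    obtain ⟨ha, -⟩ := hS q0 hq1
    have pfv : Pful v := by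
      rw [← hq2]
      exact pful_pw (by have := ha.pos; omega)
    have pfw : Pful w := by
      rw [← hq3]
      exact pful_pw (by have := ha.n0; omega)
    have pfz : Pful z := by
      rw [← hq4]
      exact pful_pw (by have := ha.f0; omega)
    have e5 : Q ^ s / ((v : ℝ) * w * z) = X ^ s * (gp s v * (gp s w * gp s z)) := by
      unfold gp
      rw [if_pos pfv, if_pos pfw, if_pos pfz, hQ, Real.mul_rpow (by positivity) (by positivity),
        Real.mul_rpow (by positivity) (by positivity), Real.mul_rpow (by positivity) (by positivity),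
        Real.div_rpow hv0.le hrv.le, Real.div_rpow hw0.le hrw.le,
        Real.div_rpow hz0.le hrz.le, Real.rpow_sub_one hv0.ne', Real.rpow_sub_one hw0.ne',
        Real.rpow_sub_one hz0.ne', Real.rpow_neg hrv.le,
        Real.rpow_neg hrw.le, Real.rpow_neg hrz.le]
      field_simp
    congr 2
    calc T ^ (3 / 2 - 5 / 2 * s) * Q ^ s / ((v : ℝ) * w * z)
        = T ^ (3 / 2 - 5 / 2 * s) * (Q ^ s / ((v : ℝ) * w * z)) := by ring
      _ = _ := by
          rw [e5]
          ring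
  have hmap : ∀ q ∈ S, typ q ∈ P ×ˢ P ×ˢ P := by
    intro q hq
    obtain ⟨-, -, -, h4, h5, h6⟩ := hS q hq
    rw [mem_product, mem_product, hP, mem_Icc, mem_Icc, mem_Icc]
    exact ⟨⟨pw_pos _, Nat.le_floor h4⟩, ⟨pw_pos _, Nat.le_floor h5⟩, ⟨pw_pos _, Nat.le_floor h6⟩⟩
  have hcard : (S.card : ℝ) =
      ∑ p ∈ P ×ˢ P ×ˢ P, ((S.filter (fun q => typ q = p)).card : ℝ) := by
    exact_mod_cast card_eq_sum_card_fiberwise hmap
  have hPW : (P.card : ℝ) ≤ W := by
    rw [hP, Nat.card_Icc]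
    have := Nat.floor_le (by linarith : 0 ≤ W)
    simpa using this
  have hPs := hsum P (by
    intro n hn
    rw [hP, mem_Icc] at hn
    omega)
  have hP0 : 0 ≤ ∑ n ∈ P, gp s n := sum_nonneg (fun n _ => gp_nonneg s n)
  have hprod : ∑ p ∈ P ×ˢ P ×ˢ P, gp s p.1 * (gp s p.2.1 * gp s p.2.2) =
      (∑ n ∈ P, gp s n) * ((∑ n ∈ P, gp s n) * ∑ n ∈ P, gp s n) := by
    rw [sum_product, sum_mul]
    refine sum_congr rfl (fun a _ => ?_)
    rw [sum_mul_sum, ← sum_product', mul_sum]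
  rw [hcard]
  calc ∑ p ∈ P ×ˢ P ×ˢ P, ((S.filter (fun q => typ q = p)).card : ℝ)
      ≤ ∑ p ∈ P ×ˢ P ×ˢ P, (16 / (1 - s) * (T ^ (3 / 2 - 5 / 2 * s) * X ^ s *
        (gp s p.1 * (gp s p.2.1 * gp s p.2.2))) + 6 * √T) := sum_le_sum hfib
    _ = 16 / (1 - s) * (T ^ (3 / 2 - 5 / 2 * s) * X ^ s *
          ((∑ n ∈ P, gp s n) * ((∑ n ∈ P, gp s n) * ∑ n ∈ P, gp s n))) +
          6 * √T * ((P.card : ℝ) * (P.card * P.card)) := by
        rw [sum_add_distrib, ← mul_sum, ← mul_sum, hprod,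
          sum_const, card_product, card_product, nsmul_eq_mul]
        push_cast
        ring
    _ ≤ 16 / (1 - s) * (T ^ (3 / 2 - 5 / 2 * s) * X ^ s * (C * (C * C))) +
          6 * √T * (W * (W * W)) := by
        gcongr
    _ = 16 / (1 - s) * C ^ 3 * (X ^ s * T ^ (3 / 2 - 5 / 2 * s)) + 6 * (√T * W ^ 3) := by ring
    _ ≤ _ := by
        have h1 : 0 ≤ X ^ s * T ^ (3 / 2 - 5 / 2 * s) := by positivity
        have h2 : 0 ≤ √T * W ^ 3 := by positivity
        have h3 : 0 ≤ 16 / (1 - s) * C ^ 3 := by positivity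
        nlinarith [mul_nonneg h3 h2]

/-- the pairs with small powerful parts and `T0 < H ≤ T1` -/
theorem rankin (s : ℝ) (hs0 : 3 / 5 < s) (hs1 : s < 1) : ∃ C : ℝ, 0 < C ∧
    ∀ X T0 T1 W : ℝ, 0 < X → 1 ≤ T0 → T0 ≤ T1 →
    1 ≤ W → ∀ S : Finset (ℤ × ℤ), (∀ q ∈ S, Ad X q ∧ T0 < HH q ∧ ((HH q : ℤ) : ℝ) ≤ T1 ∧
      (pw q.1.natAbs : ℝ) ≤ W ∧ (pw q.2.natAbs : ℝ) ≤ W ∧ (pw (gf q).natAbs : ℝ) ≤ W) →
    (S.card : ℝ) ≤ C * (X ^ s * T0 ^ (3 / 2 - 5 / 2 * s) + √T1 * W ^ 3) := by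
  classical
  obtain ⟨C, hC, hd⟩ := dyad s (by linarith) hs1
  set r : ℝ := 2 ^ (3 / 2 - 5 / 2 * s) with hr
  have hr0 : 0 < r := by positivity
  have hr1 : r < 1 := Real.rpow_lt_one_of_one_lt_of_neg (by norm_num) (by linarith)
  have hr2 : 0 < 1 - r := by linarith
  set t : ℝ := √2 with ht
  have ht1 : 1 < t := by
    rw [ht, Real.lt_sqrt (by norm_num)]
    norm_num
  have ht2 : 0 < t - 1 := by linarith
  refine ⟨C * ((1 - r)⁻¹ + t * (t - 1)⁻¹), by positivity, ?_⟩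
  intro X T0 T1 W hX hT0 hT1 hW
  have hT00 : 0 < T0 := by linarith
  have key : ∀ J : ℕ, ∀ S : Finset (ℤ × ℤ), (∀ q ∈ S, Ad X q ∧ T0 < HH q ∧
      ((HH q : ℤ) : ℝ) ≤ 2 ^ J * T0 ∧
      (pw q.1.natAbs : ℝ) ≤ W ∧ (pw q.2.natAbs : ℝ) ≤ W ∧ (pw (gf q).natAbs : ℝ) ≤ W) →
      (S.card : ℝ) ≤ C * (X ^ s * T0 ^ (3 / 2 - 5 / 2 * s) * ((1 - r ^ J) * (1 - r)⁻¹) +
        √T0 * W ^ 3 * ((t ^ J - 1) * (t - 1)⁻¹)) := by
    intro J
    induction J with
    | zero =>
      intro S hS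
      have h0 : S = ∅ := by
        rw [eq_empty_iff_forall_notMem]
        intro q hq
        obtain ⟨-, h1, h2, -⟩ := hS q hq
        rw [pow_zero, one_mul] at h2
        linarith
      rw [h0, card_empty]
      simp
    | succ J ih =>
      intro S hS
      have e1 := ih (S.filter (fun q => ((HH q : ℤ) : ℝ) ≤ 2 ^ J * T0)) (by
        intro q hq
        rw [mem_filter] at hq
        obtain ⟨h1, h2, -, h4⟩ := hS q hq.1
        exact ⟨h1, h2, hq.2, h4⟩)
      have e2 := hd X (2 ^ J * T0) W hX (by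
        have : (1 : ℝ) ≤ 2 ^ J := one_le_pow₀ (by norm_num)
        nlinarith) hW (S.filter (fun q => ¬ ((HH q : ℤ) : ℝ) ≤ 2 ^ J * T0)) (by
        intro q hq
        rw [mem_filter, not_le] at hq
        obtain ⟨h1, h2, h3, h4⟩ := hS q hq.1
        refine ⟨h1, hq.2, ?_, h4⟩
        rw [pow_succ] at h3
        linarith)
      have e3 : (S.card : ℝ) = ((S.filter (fun q => ((HH q : ℤ) : ℝ) ≤ 2 ^ J * T0)).card : ℝ) +
          ((S.filter (fun q => ¬ ((HH q : ℤ) : ℝ) ≤ 2 ^ J * T0)).card : ℝ) := by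
        rw [← Nat.cast_add, card_filter_add_card_filter_not]
      have e4 : ((2 : ℝ) ^ J * T0) ^ (3 / 2 - 5 / 2 * s) = r ^ J * T0 ^ (3 / 2 - 5 / 2 * s) := by
        rw [Real.mul_rpow (by positivity) hT00.le, hr, ← Real.rpow_natCast (2 : ℝ) J,
          ← Real.rpow_natCast ((2 : ℝ) ^ (3 / 2 - 5 / 2 * s)) J, ← Real.rpow_mul (by norm_num),
          ← Real.rpow_mul (by norm_num), mul_comm (J : ℝ)]
      have e5 : √((2 : ℝ) ^ J * T0) = t ^ J * √T0 := by
        rw [Real.sqrt_mul (by positivity), ht]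
        congr 1
        rw [Real.sqrt_eq_iff_mul_self_eq (by positivity) (by positivity), ← mul_pow,
          Real.mul_self_sqrt (by norm_num)]
      rw [e4, e5] at e2
      rw [e3]
      refine (add_le_add e1 e2).trans (le_of_eq ?_)
      have f1 : (1 - r ^ (J + 1)) * (1 - r)⁻¹ = (1 - r ^ J) * (1 - r)⁻¹ + r ^ J := by
        field_simp
        ring
      have f2 : (t ^ (J + 1) - 1) * (t - 1)⁻¹ = (t ^ J - 1) * (t - 1)⁻¹ + t ^ J := by
        field_simp
        ring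
      rw [f1, f2]
      ring
  intro S hS
  have hex : ∃ J : ℕ, T1 ≤ 2 ^ J * T0 := by
    obtain ⟨J, hJ⟩ := pow_unbounded_of_one_lt (T1 / T0) (by norm_num : (1 : ℝ) < 2)
    refine ⟨J, ?_⟩
    rw [div_lt_iff₀ hT00] at hJ
    exact hJ.le
  obtain ⟨J, hJ, hJm⟩ : ∃ J : ℕ, T1 ≤ 2 ^ J * T0 ∧ 2 ^ J * T0 ≤ 2 * T1 := by
    classical
    refine ⟨Nat.find hex, Nat.find_spec hex, ?_⟩
    rcases Nat.eq_zero_or_pos (Nat.find hex) with h0 | h0
    · rw [h0, pow_zero, one_mul]
      linarith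
    · have := Nat.find_min hex (m := Nat.find hex - 1) (by omega)
      push Not at this
      have h1 : Nat.find hex = (Nat.find hex - 1) + 1 := by omega
      rw [h1, pow_succ]
      linarith
  have hk := key J S (fun q hq => by
    obtain ⟨h1, h2, h3, h4⟩ := hS q hq
    exact ⟨h1, h2, h3.trans hJ, h4⟩)
  refine hk.trans ?_
  have g1 : (1 - r ^ J) * (1 - r)⁻¹ ≤ (1 - r)⁻¹ := by
    have : 0 ≤ (1 - r)⁻¹ := by positivity
    have h2 : 0 < r ^ J := by positivity
    nlinarith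
  have g2 : √T0 * ((t ^ J - 1) * (t - 1)⁻¹) ≤ √T1 * (t * (t - 1)⁻¹) := by
    have h1 : √T0 * t ^ J ≤ t * √T1 := by
      have : √T0 * t ^ J = √(2 ^ J * T0) := by
        rw [Real.sqrt_mul (by positivity), ht, mul_comm]
        congr 1
        symm
        rw [Real.sqrt_eq_iff_mul_self_eq (by positivity) (by positivity), ← mul_pow,
          Real.mul_self_sqrt (by norm_num)]
      rw [this, ht, ← Real.sqrt_mul (by norm_num)]
      exact Real.sqrt_le_sqrt hJm
    have h2 : 0 ≤ √T0 := Real.sqrt_nonneg _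
    have h3 : 0 < (t - 1)⁻¹ := by positivity
    calc √T0 * ((t ^ J - 1) * (t - 1)⁻¹) = (√T0 * t ^ J - √T0) * (t - 1)⁻¹ := by ring
      _ ≤ (t * √T1) * (t - 1)⁻¹ := by
          apply mul_le_mul_of_nonneg_right _ h3.le
          linarith
      _ = _ := by ring
  have p1 : 0 ≤ X ^ s * T0 ^ (3 / 2 - 5 / 2 * s) := by positivity
  have p2 : 0 ≤ √T1 * W ^ 3 := by positivity
  have p3 : 0 ≤ (1 - r)⁻¹ := by positivity
  have p4 : 0 ≤ t * (t - 1)⁻¹ := by positivity
  calc C * (X ^ s * T0 ^ (3 / 2 - 5 / 2 * s) * ((1 - r ^ J) * (1 - r)⁻¹) +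
        √T0 * W ^ 3 * ((t ^ J - 1) * (t - 1)⁻¹))
      = C * (X ^ s * T0 ^ (3 / 2 - 5 / 2 * s) * ((1 - r ^ J) * (1 - r)⁻¹) +
        (√T0 * ((t ^ J - 1) * (t - 1)⁻¹)) * W ^ 3) := by ring
    _ ≤ C * (X ^ s * T0 ^ (3 / 2 - 5 / 2 * s) * (1 - r)⁻¹ + (√T1 * (t * (t - 1)⁻¹)) * W ^ 3) := by
        gcongr
    _ = C * ((X ^ s * T0 ^ (3 / 2 - 5 / 2 * s)) * (1 - r)⁻¹ + (√T1 * W ^ 3) * (t * (t - 1)⁻¹)) := by
        ring
    _ ≤ C * ((X ^ s * T0 ^ (3 / 2 - 5 / 2 * s)) * ((1 - r)⁻¹ + t * (t - 1)⁻¹) +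
          (√T1 * W ^ 3) * ((1 - r)⁻¹ + t * (t - 1)⁻¹)) := by
        gcongr
        · linarith
        · linarith
    _ = _ := by ring

end Pool.Agent.T2h82.Sq
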