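import Pool.Agent.T2h82.Sq.Blk

/-!
# Triples with a square member: the main range
-/

set_option autoImplicit false

namespace Pool.Agent.T2h82.Sq

open Finset
open Pool.Agent.H328R2.ABC (rad rad_pos)
open Pool.Agent.T2h82 (pw pw_pos pw_dvd HH card_class card_sq_le gp gp_nonneg sum_gp pful_pw Pful
  mul_rad_eq sr sr_pos card_sr card_natAbs pw_le_sr card_rows)

theorem card_split (S : Finset (ℤ × ℤ)) (p : ℤ × ℤ → Prop) [DecidablePred p] :
    (S.card : ℝ) = ((S.filter p).card : ℝ) + ((S.filter (fun q => ¬ p q)).card : ℝ) := by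
  rw [← Nat.cast_add, card_filter_add_card_filter_not]

/-- integers of one row -/
theorem card_row (S : Finset (ℤ × ℤ)) (T : ℝ) (hT : 1 ≤ T) (a : ℤ)
    (h : ∀ q ∈ S, ((HH q : ℤ) : ℝ) ≤ T) :
    (((S.filter (fun q => q.1 = a)).image Prod.snd).card : ℝ) ≤ 3 * T := by
  have := card_class ((S.filter (fun q => q.1 = a)).image Prod.snd) 1 one_pos (-T) (2 * T)
    (by positivity) (fun y hy => by
      rw [mem_image] at hy
      obtain ⟨q, hq, rfl⟩ := hy
      have h1 := h q (mem_filter.1 hq).1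
      have e2 : |q.2| ≤ HH q := le_max_right _ _
      have e2' : ((|q.2| : ℤ) : ℝ) ≤ ((HH q : ℤ) : ℝ) := by exact_mod_cast e2
      push_cast at e2'
      have := abs_le.1 (e2'.trans h1)
      constructor <;> linarith [this.1, this.2]) (fun y _ z _ => by simp)
  push_cast at this
  linarith

theorem triv (S : Finset (ℤ × ℤ)) (T : ℝ) (hT : 1 ≤ T)
    (h : ∀ q ∈ S, ((HH q : ℤ) : ℝ) ≤ T) : (S.card : ℝ) ≤ 9 * T ^ (3 / 2 : ℝ) := by
  have hT0 : 0 < T := by linarith
  have h1 := card_rows S T (3 * T) hT (by positivity) h (fun a => card_row S T hT a h)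
  have h2 : T ^ (3 / 2 : ℝ) = √T * T := by
    rw [Real.sqrt_eq_rpow, ← Real.rpow_add_one hT0.ne']
    norm_num
  rw [h2]
  linarith

/-- pairs with a large powerful part -/
theorem bigpw (S : Finset (ℤ × ℤ)) (T D W : ℝ) (hT : 1 ≤ T) (hD : 0 < D) (hW : D ^ 3 ≤ W)
    (h : ∀ q ∈ S, 0 < q.1 ∧ q.2 ≠ 0 ∧ gf q ≠ 0 ∧ ((HH q : ℤ) : ℝ) ≤ T ∧
      (W < (pw q.1.natAbs : ℝ) ∨ W < (pw q.2.natAbs : ℝ) ∨ W < (pw (gf q).natAbs : ℝ))) :
    (S.card : ℝ) ≤ 60 * T ^ (3 / 2 : ℝ) / D := by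
  classical
  have hT0 : 0 < T := by linarith
  have hTs : T ^ (3 / 2 : ℝ) = √T * T := by
    rw [Real.sqrt_eq_rpow, ← Real.rpow_add_one hT0.ne']
    norm_num
  have hsr : ∀ n : ℕ, W < (pw n : ℝ) → D < (sr n : ℝ) := by
    intro n hn
    have h1 : ((pw n : ℕ) : ℝ) ≤ (sr n : ℝ) ^ 3 := by exact_mod_cast pw_le_sr n
    have h2 : D ^ 3 < (sr n : ℝ) ^ 3 := by linarith
    exact lt_of_pow_lt_pow_left₀ 3 (by positivity) h2
  -- the first member
  set A := S.filter (fun q => W < (pw q.1.natAbs : ℝ)) with hA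
  set B := S.filter (fun q => ¬ W < (pw q.1.natAbs : ℝ)) with hB
  have cA : (A.card : ℝ) ≤ 12 * T ^ (3 / 2 : ℝ) / D := by
    have e1 : (A.image Prod.fst).card ≤ ((Icc 1 ⌊√T⌋₊).filter (fun v => D < (sr v : ℝ))).card := by
      refine card_le_card_of_injOn Int.natAbs (fun a ha => ?_) (fun a ha b hb hab => ?_)
      · rw [mem_coe, mem_image] at ha
        obtain ⟨q, hq, rfl⟩ := ha
        rw [hA, mem_filter] at hq
        obtain ⟨h1, -, -, h4, -⟩ := h q hq.1
        rw [mem_coe, mem_filter, mem_Icc]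
        refine ⟨⟨by omega, ?_⟩, hsr _ hq.2⟩
        refine Nat.le_floor ?_
        rw [Nat.cast_natAbs]
        push_cast
        refine Real.abs_le_sqrt ?_
        have e2 : q.1 ^ 2 ≤ HH q := le_max_left _ _
        have e2' : ((q.1 ^ 2 : ℤ) : ℝ) ≤ ((HH q : ℤ) : ℝ) := by exact_mod_cast e2
        push_cast at e2'
        linarith
      · rw [mem_coe, mem_image] at ha hb
        obtain ⟨q, hq, rfl⟩ := ha
        obtain ⟨q', hq', rfl⟩ := hb
        have h1 := (h q (mem_filter.1 hq).1).1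
        have h1' := (h q' (mem_filter.1 hq').1).1
        omega
    have e2 := card_sr ⌊√T⌋₊ D hD
    have e3 : ((⌊√T⌋₊ : ℕ) : ℝ) ≤ √T := Nat.floor_le (Real.sqrt_nonneg T)
    have e4 : ((A.image Prod.fst).card : ℝ) ≤ 2 * √T / D := by
      calc ((A.image Prod.fst).card : ℝ)
          ≤ (((Icc 1 ⌊√T⌋₊).filter (fun v => D < (sr v : ℝ))).card : ℝ) := by exact_mod_cast e1
        _ ≤ 2 * (⌊√T⌋₊ : ℝ) / D := e2
        _ ≤ _ := div_le_div_of_nonneg_right (by linarith) hD.le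
    have hcard : (A.card : ℝ) =
        ∑ a ∈ A.image Prod.fst, ((A.filter (fun q => q.1 = a)).card : ℝ) := by
      rw [card_eq_sum_card_image Prod.fst A]
      push_cast
      rfl
    rw [hcard]
    calc ∑ a ∈ A.image Prod.fst, ((A.filter (fun q => q.1 = a)).card : ℝ)
        ≤ ∑ a ∈ A.image Prod.fst, 3 * T := by
          refine sum_le_sum (fun a _ => ?_)
          refine le_trans (le_of_eq ?_) (card_row A T hT a (fun q hq => (h q (mem_filter.1 hq).1).2.2.2.1))
          rw [card_image_of_injOn]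
          intro q hq q' hq' hqq
          rw [mem_coe, mem_filter] at hq hq'
          exact Prod.ext (hq.2.trans hq'.2.symm) hqq
      _ = ((A.image Prod.fst).card : ℝ) * (3 * T) := by rw [sum_const, nsmul_eq_mul]
      _ ≤ (2 * √T / D) * (3 * T) := by gcongr
      _ ≤ _ := by
          rw [hTs]
          have : 0 ≤ √T * T / D := by positivity
          calc 2 * √T / D * (3 * T) = 6 * (√T * T / D) := by ring
            _ ≤ 12 * (√T * T / D) := by linarith
            _ = _ := by ring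
  -- the other members
  set M : ℕ := ⌊2 * T⌋₊ with hM
  have hBs0 := card_sr M D hD
  set Bs := (Icc 1 M).filter (fun v => D < (sr v : ℝ)) with hBs
  have hMT : (M : ℝ) ≤ 2 * T := Nat.floor_le (by positivity)
  have hB2 : (Bs.card : ℝ) ≤ 4 * T / D :=
    hBs0.trans (div_le_div_of_nonneg_right (by linarith) hD.le)
  have hrow := card_rows B T (4 * (4 * T / D)) hT (by positivity)
    (fun q hq => (h q (mem_filter.1 hq).1).2.2.2.1)
    (fun a => by
      set R := (B.filter (fun q => q.1 = a)).image Prod.snd with hR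
      have hmem : ∀ n ∈ R, n ≠ 0 ∧ gf (a, n) ≠ 0 ∧ (n.natAbs : ℝ) ≤ 2 * T ∧
          ((gf (a, n)).natAbs : ℝ) ≤ 2 * T ∧
          (W < (pw n.natAbs : ℝ) ∨ W < (pw (gf (a, n)).natAbs : ℝ)) := by
        intro n hn
        rw [hR, mem_image] at hn
        obtain ⟨q, hq, rfl⟩ := hn
        rw [mem_filter, hB, mem_filter] at hq
        have eq : (a, q.2) = q := Prod.ext hq.2.symm rfl
        obtain ⟨h0, h1, h2, h3, h4⟩ := h q hq.1.1
        rw [eq]
        have e2 : |q.2| ≤ HH q := le_max_right _ _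
        have e2' : ((|q.2| : ℤ) : ℝ) ≤ ((HH q : ℤ) : ℝ) := by exact_mod_cast e2
        have e3 : |gf q| ≤ 2 * HH q := by
          have e4 : q.1 ^ 2 ≤ HH q := le_max_left _ _
          have e5 := abs_le.1 e2
          unfold gf
          have e6 := sq_nonneg q.1
          rw [abs_le]
          constructor <;> linarith [e5.1, e5.2]
        have e3' : ((|gf q| : ℤ) : ℝ) ≤ ((2 * HH q : ℤ) : ℝ) := by exact_mod_cast e3
        refine ⟨h1, h2, ?_, ?_, ?_⟩
        · rw [Nat.cast_natAbs]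
          linarith
        · rw [Nat.cast_natAbs]
          push_cast at e3' ⊢
          linarith
        · rcases h4 with h4 | h4
          · exact absurd h4 hq.1.2
          · exact h4
      have e1 : ((R.filter (fun n => W < (pw n.natAbs : ℝ))).card : ℝ) ≤ 2 * (4 * T / D) := by
        have g1 := card_natAbs (R.filter (fun n => W < (pw n.natAbs : ℝ)))
        have g2 : (R.filter (fun n => W < (pw n.natAbs : ℝ))).image Int.natAbs ⊆ Bs := by
          intro v hv
          rw [mem_image] at hv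
          obtain ⟨n, hn, rfl⟩ := hv
          rw [mem_filter] at hn
          obtain ⟨h1, h2, h3, h4, h5⟩ := hmem n hn.1
          rw [hBs, mem_filter, mem_Icc]
          exact ⟨⟨by omega, Nat.le_floor h3⟩, hsr _ hn.2⟩
        have g3 := card_le_card g2
        have g4 : ((R.filter (fun n => W < (pw n.natAbs : ℝ))).card : ℝ) ≤ 2 * (Bs.card : ℝ) := by
          exact_mod_cast g1.trans (by omega)
        linarith
      have e2 : ((R.filter (fun n => ¬ W < (pw n.natAbs : ℝ))).card : ℝ) ≤ 2 * (4 * T / D) := by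
        have g0 : (R.filter (fun n => ¬ W < (pw n.natAbs : ℝ))).card =
            ((R.filter (fun n => ¬ W < (pw n.natAbs : ℝ))).image (fun n => gf (a, n))).card := by
          rw [card_image_of_injective]
          intro n n' hnn
          unfold gf at hnn
          simp only at hnn
          omega
        have g1 := card_natAbs
          ((R.filter (fun n => ¬ W < (pw n.natAbs : ℝ))).image (fun n => gf (a, n)))
        have g2 : ((R.filter (fun n => ¬ W < (pw n.natAbs : ℝ))).image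
            (fun n => gf (a, n))).image Int.natAbs ⊆ Bs := by
          intro v hv
          rw [mem_image] at hv
          obtain ⟨m, hm, rfl⟩ := hv
          rw [mem_image] at hm
          obtain ⟨n, hn, rfl⟩ := hm
          rw [mem_filter] at hn
          obtain ⟨h1, h2, h3, h4, h5⟩ := hmem n hn.1
          rw [hBs, mem_filter, mem_Icc]
          refine ⟨⟨by omega, Nat.le_floor h4⟩, hsr _ ?_⟩
          rcases h5 with h5 | h5
          · exact absurd h5 hn.2
          · exact h5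
        have g3 := card_le_card g2
        have g4 : ((R.filter (fun n => ¬ W < (pw n.natAbs : ℝ))).card : ℝ) ≤
            2 * (Bs.card : ℝ) := by
          rw [g0]
          exact_mod_cast g1.trans (by omega)
        linarith
      have e3 : (R.card : ℝ) = ((R.filter (fun n => W < (pw n.natAbs : ℝ))).card : ℝ) +
          ((R.filter (fun n => ¬ W < (pw n.natAbs : ℝ))).card : ℝ) := by
        rw [← Nat.cast_add, card_filter_add_card_filter_not]
      rw [e3]
      linarith)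
  have e0 := card_split S (fun q => W < (pw q.1.natAbs : ℝ))
  rw [e0]
  have e1 : 3 * √T * (4 * (4 * T / D)) = 48 * T ^ (3 / 2 : ℝ) / D := by
    rw [hTs]
    ring
  rw [e1] at hrow
  have e2 : 60 * T ^ (3 / 2 : ℝ) / D = 12 * T ^ (3 / 2 : ℝ) / D + 48 * T ^ (3 / 2 : ℝ) / D := by ring
  rw [e2]
  exact add_le_add cA hrow

/-- the pairs of size between `K X ^ (2 / 5)` and `X ^ (21 / 50)` -/
theorem tail (s : ℝ) (hs0 : 3 / 5 < s) (hs1 : s < 1) : ∃ C : ℝ, 0 < C ∧
    ∀ X K : ℝ, 1 ≤ X → 1 ≤ K → ∀ S : Finset (ℤ × ℤ), (∀ q ∈ S, Ad X q ∧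
      K * X ^ (2 / 5 : ℝ) < HH q ∧ ((HH q : ℤ) : ℝ) ≤ X ^ (21 / 50 : ℝ)) →
    (S.card : ℝ) ≤ C * (K ^ (3 / 2 - 5 / 2 * s) * X ^ (3 / 5 : ℝ) + X ^ (3 / 5 - 1 / 300 : ℝ)) := by
  classical
  obtain ⟨C2, hC2, hr⟩ := rankin s hs0 hs1
  refine ⟨C2 + 60, by positivity, ?_⟩
  intro X K hX hK S hS
  have hX0 : 0 < X := by linarith
  have hXh : 1 ≤ X ^ (2 / 5 : ℝ) := Real.one_le_rpow hX (by norm_num)
  have hT0 : 1 ≤ K * X ^ (2 / 5 : ℝ) := by nlinarith
  set T0 : ℝ := K * X ^ (2 / 5 : ℝ) with hT0d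
  set T1 : ℝ := X ^ (21 / 50 : ℝ) with hT1d
  set W : ℝ := X ^ (1 / 10 : ℝ) with hW
  set D : ℝ := X ^ (1 / 30 : ℝ) with hD
  have hW1 : 1 ≤ W := Real.one_le_rpow hX (by norm_num)
  have hDW : D ^ 3 = W := by
    rw [hD, hW, ← Real.rpow_natCast, ← Real.rpow_mul hX0.le]
    norm_num
  have hT11 : 1 ≤ T1 := Real.one_le_rpow hX (by norm_num)
  set p : ℤ × ℤ → Prop := fun q => (pw q.1.natAbs : ℝ) ≤ W ∧ (pw q.2.natAbs : ℝ) ≤ W ∧
    (pw (gf q).natAbs : ℝ) ≤ W with hp
  have e0 := card_split S p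
  have cB1 : ((S.filter p).card : ℝ) ≤ C2 * (X ^ s * T0 ^ (3 / 2 - 5 / 2 * s) + √T1 * W ^ 3) := by
    rcases le_total T0 T1 with hle | hle
    · refine hr X T0 T1 W hX0 hT0 hle hW1 _ (fun q hq => ?_)
      rw [mem_filter] at hq
      obtain ⟨h1, h2, h3⟩ := hS q hq.1
      exact ⟨h1, h2, h3, hq.2⟩
    · have h0 : S.filter p = ∅ := by
        rw [eq_empty_iff_forall_notMem]
        intro q hq
        rw [mem_filter] at hq
        obtain ⟨h1, h2, h3⟩ := hS q hq.1
        linarith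
      rw [h0, card_empty]
      push_cast
      positivity
  have cB2 : ((S.filter (fun q => ¬ p q)).card : ℝ) ≤ 60 * T1 ^ (3 / 2 : ℝ) / D := by
    refine bigpw _ T1 D W hT11 (by positivity) hDW.le (fun q hq => ?_)
    rw [mem_filter] at hq
    obtain ⟨h1, h2, h3⟩ := hS q hq.1
    refine ⟨h1.pos, h1.n0, h1.f0, h3, ?_⟩
    by_contra hcon
    push Not at hcon
    exact hq.2 hcon
  have f2 : X ^ s * T0 ^ (3 / 2 - 5 / 2 * s) = K ^ (3 / 2 - 5 / 2 * s) * X ^ (3 / 5 : ℝ) := by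
    rw [hT0d, Real.mul_rpow (by linarith) (by positivity), ← Real.rpow_mul hX0.le,
      mul_left_comm, ← Real.rpow_add hX0]
    congr 2
    ring
  have f3 : √T1 * W ^ 3 ≤ X ^ (3 / 5 - 1 / 300 : ℝ) := by
    rw [hT1d, hW, Real.sqrt_eq_rpow, ← Real.rpow_mul hX0.le, ← Real.rpow_natCast,
      ← Real.rpow_mul hX0.le, ← Real.rpow_add hX0]
    refine Real.rpow_le_rpow_of_exponent_le hX ?_
    norm_num
  have f4 : T1 ^ (3 / 2 : ℝ) / D = X ^ (3 / 5 - 1 / 300 : ℝ) := by
    rw [hT1d, hD, ← Real.rpow_mul hX0.le, ← Real.rpow_sub hX0]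
    norm_num
  rw [mul_div_assoc, f4] at cB2
  rw [f2] at cB1
  have p1 : 0 ≤ K ^ (3 / 2 - 5 / 2 * s) * X ^ (3 / 5 : ℝ) := by positivity
  have p2 : 0 ≤ X ^ (3 / 5 - 1 / 300 : ℝ) := by positivity
  rw [e0]
  nlinarith [mul_le_mul_of_nonneg_left f3 hC2.le]

/-- the main range -/
theorem main : ∃ C : ℝ, 0 < C ∧ ∀ X : ℝ, 1 ≤ X → ∀ S : Finset (ℤ × ℤ), (∀ q ∈ S, Ad X q ∧
      ((HH q : ℤ) : ℝ) ≤ X ^ (21 / 50 : ℝ)) → (S.card : ℝ) ≤ C * X ^ (3 / 5 : ℝ) := by
  classical
  obtain ⟨C, hC, h⟩ := tail (4 / 5) (by norm_num) (by norm_num)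
  refine ⟨2 * C + 9, by positivity, ?_⟩
  intro X hX S hS
  have hX0 : 0 < X := by linarith
  have h1 := h X 1 hX le_rfl (S.filter (fun q => X ^ (2 / 5 : ℝ) < HH q)) (fun q hq => by
    rw [mem_filter] at hq
    obtain ⟨a1, a2⟩ := hS q hq.1
    refine ⟨a1, ?_, a2⟩
    rw [one_mul]
    exact hq.2)
  have h2 := triv (S.filter (fun q => ¬ X ^ (2 / 5 : ℝ) < HH q)) (X ^ (2 / 5 : ℝ))
    (Real.one_le_rpow hX (by norm_num)) (fun q hq => by
    rw [mem_filter, not_lt] at hq
    exact hq.2)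
  have e1 := card_split S (fun q => X ^ (2 / 5 : ℝ) < HH q)
  have e2 : (X ^ (2 / 5 : ℝ)) ^ (3 / 2 : ℝ) = X ^ (3 / 5 : ℝ) := by
    rw [← Real.rpow_mul hX0.le]
    norm_num
  rw [e2] at h2
  rw [Real.one_rpow, one_mul] at h1
  have e3 : X ^ (3 / 5 - 1 / 300 : ℝ) ≤ X ^ (3 / 5 : ℝ) :=
    Real.rpow_le_rpow_of_exponent_le hX (by norm_num)
  rw [e1]
  nlinarith

end Pool.Agent.T2h82.Sq
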