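import Pool.Agent.T2h82.Sq.Tot
import Pool.Agent.T2h82.Sq.Large

/-!
# The abc triples with a perfect power, the main range
-/

set_option autoImplicit false

namespace Pool.Agent.T2h82.Sq

open Finset
open Pool.Agent.H328R2.ABC (rad rad_pos)
open Pool.Agent.T2h82 (HH)
open Pool.Agent.H328R2.ABC.RadSumAux (rad_mul_cop)

/-- a perfect power -/
def PP (n : ℕ) : Prop := ∃ w m : ℕ, 2 ≤ w ∧ 2 ≤ m ∧ n = w ^ m

/-- a member with the property `P` -/
def Mem (P : ℕ → Prop) (t : ℕ × ℕ × ℕ) : Prop := P t.1 ∨ P t.2.1 ∨ P t.2.2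

theorem rad_pow {n j : ℕ} (hj : j ≠ 0) : rad (n ^ j) = rad n := by
  unfold rad
  rw [Nat.primeFactors_pow _ hj]

theorem IsT.cop {t : ℕ × ℕ × ℕ} (h : IsT t) : Nat.Coprime t.1 t.2.1 ∧ Nat.Coprime t.1 t.2.2 ∧
    Nat.Coprime t.2.1 t.2.2 := by
  obtain ⟨h1, h2, h3, h4⟩ := h
  refine ⟨h3, ?_, ?_⟩
  · rw [← h4]
    simpa using h3
  · rw [← h4]
    simpa using h3.symm

theorem R3_eq {t : ℕ × ℕ × ℕ} (h : IsT t) : R3 t = rad t.1 * rad t.2.1 * rad t.2.2 := by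
  obtain ⟨h1, h2, h3⟩ := h.cop
  have e : R3 t = rad (t.1 * t.2.1 * t.2.2) := rfl
  rw [e, rad_mul_cop (Nat.Coprime.mul_left h2 h3), rad_mul_cop h1]

/-- the pair of a triple whose `i`-th member is a square -/
theorem sq_pair (t : ℕ × ℕ × ℕ) (ht : IsT t) (x : ℕ) :
    (t.2.2 = x ^ 2 → Ad (R3 t) ((x : ℤ), (t.1 : ℤ)) ∧ HH ((x : ℤ), (t.1 : ℤ)) ≤ t.2.2) ∧
    (t.1 = x ^ 2 → Ad (R3 t) ((x : ℤ), -(t.2.1 : ℤ)) ∧ HH ((x : ℤ), -(t.2.1 : ℤ)) ≤ t.2.2) ∧
    (t.2.1 = x ^ 2 → Ad (R3 t) ((x : ℤ), -(t.1 : ℤ)) ∧ HH ((x : ℤ), -(t.1 : ℤ)) ≤ t.2.2) := by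
  obtain ⟨k1, k2, k3⟩ := ht.cop
  have hR := R3_eq ht
  obtain ⟨a, b, c⟩ := t
  obtain ⟨h1, h2, h3, h4⟩ := ht
  simp only at *
  have hb : 0 < b := by omega
  have hc : 0 < c := by omega
  refine ⟨?_, ?_, ?_⟩
  · intro hx
    have hx0 : 0 < x := by
      rcases Nat.eq_zero_or_pos x with h | h
      · rw [h] at hx; omega
      · exact h
    have hg : gf ((x : ℤ), (a : ℤ)) = (b : ℤ) := by
      unfold gf
      have : (c : ℤ) = (x : ℤ) ^ 2 := by exact_mod_cast hx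
      have h5 : (a : ℤ) + b = c := by exact_mod_cast h4
      simp only
      linarith
    refine ⟨⟨Int.natCast_pos.2 hx0, by simp; omega, by rw [hg]; simp; omega, ?_, ?_⟩, ?_⟩
    · rw [Nat.isCoprime_iff_coprime]
      rw [hx] at k2
      exact (Nat.Coprime.coprime_dvd_right (dvd_pow_self x (by norm_num)) k2).symm
    · rw [hg, hR]
      simp only [Int.natAbs_natCast]
      rw [hx, rad_pow (by norm_num)]
      push_cast
      refine le_of_eq ?_
      ring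
    · unfold HH
      simp only
      rw [Nat.abs_cast]
      refine max_le ?_ ?_
      · exact_mod_cast hx.symm.le
      · exact_mod_cast (by omega : a ≤ c)
  · intro hx
    have hx0 : 0 < x := by
      rcases Nat.eq_zero_or_pos x with h | h
      · rw [h] at hx; omega
      · exact h
    have hg : gf ((x : ℤ), -(b : ℤ)) = (c : ℤ) := by
      unfold gf
      have : (a : ℤ) = (x : ℤ) ^ 2 := by exact_mod_cast hx
      have h5 : (a : ℤ) + b = c := by exact_mod_cast h4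
      simp only
      linarith
    refine ⟨⟨Int.natCast_pos.2 hx0, by simp; omega, by rw [hg]; simp; omega, ?_, ?_⟩, ?_⟩
    · rw [IsCoprime.neg_right_iff, Nat.isCoprime_iff_coprime]
      rw [hx] at k1
      exact Nat.Coprime.coprime_dvd_left (dvd_pow_self x (by norm_num)) k1
    · rw [hg, hR]
      simp only [Int.natAbs_natCast, Int.natAbs_neg]
      rw [hx, rad_pow (by norm_num)]
      push_cast
      exact le_refl _
    · unfold HH
      simp only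
      rw [abs_neg, Nat.abs_cast]
      refine max_le ?_ ?_
      · have : x ^ 2 ≤ c := by omega
        exact_mod_cast this
      · exact_mod_cast (by omega : b ≤ c)
  · intro hx
    have hx0 : 0 < x := by
      rcases Nat.eq_zero_or_pos x with h | h
      · rw [h] at hx; omega
      · exact h
    have hg : gf ((x : ℤ), -(a : ℤ)) = (c : ℤ) := by
      unfold gf
      have : (b : ℤ) = (x : ℤ) ^ 2 := by exact_mod_cast hx
      have h5 : (a : ℤ) + b = c := by exact_mod_cast h4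
      simp only
      linarith
    refine ⟨⟨Int.natCast_pos.2 hx0, by simp; omega, by rw [hg]; simp; omega, ?_, ?_⟩, ?_⟩
    · rw [IsCoprime.neg_right_iff, Nat.isCoprime_iff_coprime]
      rw [hx] at k1
      exact (Nat.Coprime.coprime_dvd_right (dvd_pow_self x (by norm_num)) k1).symm
    · rw [hg, hR]
      simp only [Int.natAbs_natCast, Int.natAbs_neg]
      rw [hx, rad_pow (by norm_num)]
      push_cast
      refine le_of_eq ?_
      ring
    · unfold HH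
      simp only
      rw [abs_neg, Nat.abs_cast]
      refine max_le ?_ ?_
      · have : x ^ 2 ≤ c := by omega
        exact_mod_cast this
      · exact_mod_cast (by omega : a ≤ c)

theorem Ad.mono {X Y : ℝ} {q : ℤ × ℤ} (h : Ad X q) (hXY : X ≤ Y) : Ad Y q :=
  ⟨h.pos, h.n0, h.f0, h.cop, h.rad_le.trans hXY⟩

/-- the triples with a square, from the pairs -/
theorem squares_of (X Y B : ℝ) (h : ∀ S : Finset (ℤ × ℤ), (∀ q ∈ S, Ad X q ∧
    ((HH q : ℤ) : ℝ) ≤ Y) → (S.card : ℝ) ≤ B) (S : Finset (ℕ × ℕ × ℕ))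
    (hS : ∀ t ∈ S, IsT t ∧ (R3 t : ℝ) ≤ X ∧ (t.2.2 : ℝ) ≤ Y ∧
      Mem (fun n => ∃ x : ℕ, n = x ^ 2) t) : (S.card : ℝ) ≤ 3 * B := by
  classical
  -- the three parts
  have key : ∀ (f : ℕ × ℕ × ℕ → ℕ) (g : ℕ × ℕ × ℕ → ℤ), (∀ t ∈ S, ∀ x : ℕ, f t = x ^ 2 →
      Ad (R3 t) ((x : ℤ), g t) ∧ HH ((x : ℤ), g t) ≤ t.2.2) →
      (∀ t ∈ S, ∀ t' ∈ S, f t = f t' → g t = g t' → t = t') →
      ((S.filter (fun t => ∃ x : ℕ, f t = x ^ 2)).card : ℝ) ≤ B := by
    intro f g hfg hinj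
    set A := S.filter (fun t => ∃ x : ℕ, f t = x ^ 2) with hA
    have hmem : ∀ t ∈ A, t ∈ S ∧ f t = (Nat.sqrt (f t)) ^ 2 := by
      intro t ht
      rw [hA, mem_filter] at ht
      obtain ⟨h1, x, hx⟩ := ht
      refine ⟨h1, ?_⟩
      rw [hx, sq x, Nat.sqrt_eq]
      ring
    have hcard : A.card = (A.image (fun t => (((Nat.sqrt (f t) : ℕ) : ℤ), g t))).card := by
      rw [card_image_of_injOn]
      intro t ht t' ht' htt
      rw [mem_coe] at ht ht'
      obtain ⟨a1, a2⟩ := hmem t ht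
      obtain ⟨b1, b2⟩ := hmem t' ht'
      rw [Prod.mk.injEq] at htt
      have e1 : Nat.sqrt (f t) = Nat.sqrt (f t') := by exact_mod_cast htt.1
      refine hinj t a1 t' b1 ?_ htt.2
      rw [a2, b2, e1]
    rw [hcard]
    refine h _ (fun q hq => ?_)
    rw [mem_image] at hq
    obtain ⟨t, ht, rfl⟩ := hq
    obtain ⟨a1, a2⟩ := hmem t ht
    obtain ⟨c1, c2, c3, -⟩ := hS t a1
    obtain ⟨d1, d2⟩ := hfg t a1 _ a2
    refine ⟨d1.mono c2, ?_⟩
    have : ((HH (((Nat.sqrt (f t) : ℕ) : ℤ), g t) : ℤ) : ℝ) ≤ ((t.2.2 : ℤ) : ℝ) := by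
      exact_mod_cast d2
    push_cast at this
    linarith
  have i1 := key (fun t => t.2.2) (fun t => (t.1 : ℤ)) (fun t ht x hx => (sq_pair t (hS t ht).1 x).1 hx)
    (by
      rintro ⟨a, b, c⟩ ht ⟨a', b', c'⟩ ht' h1 h2
      obtain ⟨-, -, -, h4⟩ := (hS _ ht).1
      obtain ⟨-, -, -, h4'⟩ := (hS _ ht').1
      simp only at h1 h2 h4 h4'
      have h3 : a = a' := by exact_mod_cast h2
      have h5 : b = b' := by omega
      rw [h3, h5, h1])
  have i2 := key (fun t => t.1) (fun t => -(t.2.1 : ℤ)) (fun t ht x hx => (sq_pair t (hS t ht).1 x).2.1 hx)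
    (by
      rintro ⟨a, b, c⟩ ht ⟨a', b', c'⟩ ht' h1 h2
      obtain ⟨-, -, -, h4⟩ := (hS _ ht).1
      obtain ⟨-, -, -, h4'⟩ := (hS _ ht').1
      simp only at h1 h2 h4 h4'
      have h3 : b = b' := by
        have : (b : ℤ) = b' := by linarith
        exact_mod_cast this
      have h5 : c = c' := by omega
      rw [h3, h5, h1])
  have i3 := key (fun t => t.2.1) (fun t => -(t.1 : ℤ)) (fun t ht x hx => (sq_pair t (hS t ht).1 x).2.2 hx)
    (by
      rintro ⟨a, b, c⟩ ht ⟨a', b', c'⟩ ht' h1 h2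
      obtain ⟨-, -, -, h4⟩ := (hS _ ht).1
      obtain ⟨-, -, -, h4'⟩ := (hS _ ht').1
      simp only at h1 h2 h4 h4'
      have h3 : a = a' := by
        have : (a : ℤ) = a' := by linarith
        exact_mod_cast this
      have h5 : c = c' := by omega
      rw [h3, h5, h1])
  have hsub : S ⊆ (S.filter (fun t => ∃ x : ℕ, t.2.2 = x ^ 2)) ∪
      ((S.filter (fun t => ∃ x : ℕ, t.1 = x ^ 2)) ∪ (S.filter (fun t => ∃ x : ℕ, t.2.1 = x ^ 2))) := by
    intro t ht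
    rw [mem_union, mem_union, mem_filter, mem_filter, mem_filter]
    rcases (hS t ht).2.2.2 with h1 | h1 | h1
    · exact Or.inr (Or.inl ⟨ht, h1⟩)
    · exact Or.inr (Or.inr ⟨ht, h1⟩)
    · exact Or.inl ⟨ht, h1⟩
  have e1 := (card_le_card hsub).trans ((card_union_le _ _).trans
    (add_le_add le_rfl (card_union_le _ _)))
  have e2 : (S.card : ℝ) ≤ ((S.filter (fun t => ∃ x : ℕ, t.2.2 = x ^ 2)).card : ℝ) +
      (((S.filter (fun t => ∃ x : ℕ, t.1 = x ^ 2)).card : ℝ) +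
        ((S.filter (fun t => ∃ x : ℕ, t.2.1 = x ^ 2)).card : ℝ)) := by exact_mod_cast e1
  linarith

/-- the triples with a square, the main range -/
theorem squares : ∃ C : ℝ, 0 < C ∧ ∀ X : ℝ, 1 ≤ X → ∀ S : Finset (ℕ × ℕ × ℕ),
    (∀ t ∈ S, IsT t ∧ (R3 t : ℝ) ≤ X ∧ (t.2.2 : ℝ) ≤ X ^ (21 / 50 : ℝ) ∧
      Mem (fun n => ∃ x : ℕ, n = x ^ 2) t) → (S.card : ℝ) ≤ C * X ^ (3 / 5 : ℝ) := by
  obtain ⟨C, hC, h⟩ := main
  refine ⟨3 * C, by positivity, fun X hX S hS => ?_⟩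
  rw [mul_assoc]
  exact squares_of X _ _ (h X hX) S hS

/-- the triples with a square and `c ≤ Y` -/
theorem squares_small (X Y : ℝ) (hY : 1 ≤ Y) (S : Finset (ℕ × ℕ × ℕ))
    (hS : ∀ t ∈ S, IsT t ∧ (R3 t : ℝ) ≤ X ∧ (t.2.2 : ℝ) ≤ Y ∧
      Mem (fun n => ∃ x : ℕ, n = x ^ 2) t) : (S.card : ℝ) ≤ 27 * Y ^ (3 / 2 : ℝ) := by
  have := squares_of X Y (9 * Y ^ (3 / 2 : ℝ)) (fun S' hS' => triv S' Y hY (fun q hq => (hS' q hq).2))
    S hS
  linarith

/-- the triples with a higher power -/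
theorem cubes (Y : ℝ) (hY : 1 ≤ Y) (S : Finset (ℕ × ℕ × ℕ))
    (hS : ∀ t ∈ S, IsT t ∧ (t.2.2 : ℝ) ≤ Y ∧
      Mem (fun n => ∃ w m : ℕ, 2 ≤ w ∧ 3 ≤ m ∧ n = w ^ m) t) :
    (S.card : ℝ) ≤ 3 * (Y ^ (1 / 3 : ℝ) * (Real.log Y / Real.log 2 + 1)) * Y := by
  classical
  set N : ℕ := ⌊Y⌋₊ with hN
  have hNY : (N : ℝ) ≤ Y := Nat.floor_le (by linarith)
  set A : ℕ := ⌊Y ^ (1 / 3 : ℝ)⌋₊ with hA
  have hAY : (A : ℝ) ≤ Y ^ (1 / 3 : ℝ) := Nat.floor_le (by positivity)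
  set L : ℕ := ⌊Real.log Y / Real.log 2⌋₊ with hL
  have hl2 : 0 < Real.log 2 := Real.log_pos (by norm_num)
  have hLY : (L : ℝ) ≤ Real.log Y / Real.log 2 :=
    Nat.floor_le (div_nonneg (Real.log_nonneg hY) hl2.le)
  set P : Finset ℕ := ((Icc 1 A) ×ˢ (range (L + 1))).image (fun z => z.1 ^ z.2) with hP
  have hPc : (P.card : ℝ) ≤ Y ^ (1 / 3 : ℝ) * (Real.log Y / Real.log 2 + 1) := by
    have h1 : P.card ≤ A * (L + 1) := by
      refine card_image_le.trans ?_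
      rw [card_product, Nat.card_Icc, card_range]
      simp
    have h2 : (P.card : ℝ) ≤ (A : ℝ) * ((L : ℝ) + 1) := by exact_mod_cast h1
    refine h2.trans ?_
    gcongr
  have hmemP : ∀ n : ℕ, (n : ℝ) ≤ Y → (∃ w m : ℕ, 2 ≤ w ∧ 3 ≤ m ∧ n = w ^ m) → n ∈ P := by
    rintro n hn ⟨w, m, hw, hm, rfl⟩
    have hw1 : (1 : ℝ) ≤ w := by exact_mod_cast (by omega : 1 ≤ w)
    have hw2 : (2 : ℝ) ≤ w := by exact_mod_cast hw
    push_cast at hn
    rw [hP, mem_image]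
    refine ⟨(w, m), ?_, rfl⟩
    rw [mem_product, mem_Icc, mem_range]
    refine ⟨⟨by simp only; omega, ?_⟩, ?_⟩
    · refine Nat.le_floor ?_
      have h1 : (w : ℝ) ^ 3 ≤ Y := (pow_le_pow_right₀ hw1 hm).trans hn
      calc (w : ℝ) = ((w : ℝ) ^ 3) ^ (1 / 3 : ℝ) := by
            rw [← Real.rpow_natCast, ← Real.rpow_mul (by positivity)]
            norm_num
        _ ≤ Y ^ (1 / 3 : ℝ) := Real.rpow_le_rpow (by positivity) h1 (by norm_num)
    · rw [Nat.lt_succ_iff]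
      refine Nat.le_floor ?_
      rw [le_div_iff₀ hl2, ← Real.log_pow]
      refine Real.log_le_log (by positivity) ?_
      exact (pow_le_pow_left₀ (by norm_num) hw2 m).trans hn
  have hle : ∀ t ∈ S, t.1 ≤ N ∧ t.2.1 ≤ N ∧ t.2.2 ≤ N ∧ 0 < t.1 ∧ 0 < t.2.1 ∧ t.1 + t.2.1 = t.2.2 := by
    intro t ht
    obtain ⟨⟨h1, h2, h3, h4⟩, h5, -⟩ := hS t ht
    have h6 : t.2.2 ≤ N := Nat.le_floor h5
    omega
  -- map to (which, power, other)
  have hsub : S ⊆ (P ×ˢ (Icc 1 N)).image (fun z : ℕ × ℕ => ((z.1, z.2, z.1 + z.2) : ℕ × ℕ × ℕ)) ∪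
      ((P ×ˢ (Icc 1 N)).image (fun z : ℕ × ℕ => ((z.2, z.1, z.2 + z.1) : ℕ × ℕ × ℕ)) ∪
       (P ×ˢ (Icc 1 N)).image (fun z : ℕ × ℕ => ((z.2, z.1 - z.2, z.1) : ℕ × ℕ × ℕ))) := by
    rintro ⟨a, b, c⟩ ht
    obtain ⟨h1, h2, h3, h4, h5, h6⟩ := hle _ ht
    obtain ⟨-, hc, hm⟩ := hS _ ht
    simp only at h1 h2 h3 h4 h5 h6 hc
    have ha' : (a : ℝ) ≤ Y := by
      have : (a : ℝ) ≤ N := by exact_mod_cast h1
      linarith
    have hb' : (b : ℝ) ≤ Y := by
      have : (b : ℝ) ≤ N := by exact_mod_cast h2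
      linarith
    rw [mem_union, mem_union, mem_image, mem_image, mem_image]
    rcases hm with hm | hm | hm
    · left
      refine ⟨(a, b), ?_, ?_⟩
      · rw [mem_product, mem_Icc]
        exact ⟨hmemP a ha' hm, h5, h2⟩
      · simp only
        rw [h6]
    · right; left
      refine ⟨(b, a), ?_, ?_⟩
      · rw [mem_product, mem_Icc]
        exact ⟨hmemP b hb' hm, h4, h1⟩
      · simp only
        rw [h6]
    · right; right
      refine ⟨(c, a), ?_, ?_⟩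
      · rw [mem_product, mem_Icc]
        exact ⟨hmemP c hc hm, h4, h1⟩
      · simp only
        have : c - a = b := by omega
        rw [this]
  have e1 := (card_le_card hsub).trans ((card_union_le _ _).trans
    (add_le_add card_image_le ((card_union_le _ _).trans (add_le_add card_image_le card_image_le))))
  rw [card_product, Nat.card_Icc] at e1
  have e2 : S.card ≤ 3 * (P.card * N) := by
    have : N + 1 - 1 = N := by omega
    rw [this] at e1
    omega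
  calc (S.card : ℝ) ≤ ((3 * (P.card * N) : ℕ) : ℝ) := by exact_mod_cast e2
    _ = 3 * (P.card : ℝ) * N := by push_cast; ring
    _ ≤ 3 * (Y ^ (1 / 3 : ℝ) * (Real.log Y / Real.log 2 + 1)) * Y := by
        have hlog : 0 ≤ Real.log Y / Real.log 2 := div_nonneg (Real.log_nonneg hY) hl2.le
        have hp : 0 ≤ 3 * (Y ^ (1 / 3 : ℝ) * (Real.log Y / Real.log 2 + 1)) :=
          mul_nonneg (by norm_num) (mul_nonneg (by positivity) (by linarith))
        apply mul_le_mul _ hNY (by positivity) hp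
        linarith

end Pool.Agent.T2h82.Sq
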